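import Mathlib

/-!
Basic tools for finite local determination of invariant types (MP_394364_lc):
finite parameter sets, ultrafilters and types, elementarity, products of ultrafilters,
shattering, and the main combinatorial lemma.
-/

set_option autoImplicit false
open FirstOrder FirstOrder.Language Filter

namespace Pool.Agent.FLD394364

variable {L : FirstOrder.Language.{0, 0}}

/-! ### formulas -/

open Classical in
/-- finitely many formulas with parameter variables in `W` only use finitely many of them -/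
theorem exists_fin_params {α W : Type} (Θ : Finset (L.Formula (α ⊕ W))) :
    ∃ (k : ℕ) (c : Fin k → W) (t : L.Formula (α ⊕ W) → L.Formula (α ⊕ Fin k)),
      ∀ θ ∈ Θ, ∀ (P : Type) [L.Structure P] (y : α → P) (w : W → P),
        ((t θ).Realize (Sum.elim y (fun i => w (c i))) ↔ θ.Realize (Sum.elim y w)) := by
  let V : Finset (α ⊕ W) := Θ.biUnion (fun θ => θ.freeVarFinset)
  let T : Finset W := V.preimage Sum.inr (Sum.inr_injective.injOn)
  let e := T.equivFin
  have hT : ∀ θ ∈ Θ, ∀ w : W, Sum.inr w ∈ θ.freeVarFinset → w ∈ T := by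
    intro θ hθ w hw
    rw [Finset.mem_preimage]
    exact Finset.mem_biUnion.2 ⟨θ, hθ, hw⟩
  have hex : ∀ θ : L.Formula (α ⊕ W), ∃ t : L.Formula (α ⊕ Fin T.card),
      θ ∈ Θ → ∀ (P : Type) [L.Structure P] (y : α → P) (w : W → P),
        (t.Realize (Sum.elim y (fun i => w ((e.symm i).1))) ↔ θ.Realize (Sum.elim y w)) := by
    intro θ
    by_cases hθ : θ ∈ Θ
    · let r : θ.freeVarFinset → α ⊕ Fin T.card := fun v =>
        match v with
        | ⟨Sum.inl a, _⟩ => Sum.inl a
        | ⟨Sum.inr w, hw⟩ => Sum.inr (e ⟨w, hT θ hθ w hw⟩)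
      refine ⟨BoundedFormula.restrictFreeVar θ r, fun _ P _ y w => ?_⟩
      unfold Formula.Realize
      refine BoundedFormula.realize_restrictFreeVar (Sum.elim y w) ?_
      rintro ⟨v, hv⟩
      cases v with
      | inl a => rfl
      | inr w' =>
        simp only [r, Sum.elim_inr, Equiv.symm_apply_apply]
    · exact ⟨⊥, fun h => absurd h hθ⟩
  choose t ht using hex
  exact ⟨T.card, fun i => (e.symm i).1, t, fun θ hθ => ht θ hθ⟩

section elem
variable {M P : Type} [L.Structure M] [L.Structure P] (h : M ↪ₑ[L] P)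

theorem realize_map {β : Type} (ψ : L.Formula (β ⊕ M)) (y : β → M) :
    ψ.Realize (Sum.elim (fun i => h (y i)) h) ↔ ψ.Realize (Sum.elim y id) := by
  rw [← h.map_formula ψ]
  have : (h ∘ Sum.elim y id : β ⊕ M → P) = Sum.elim (fun i => h (y i)) h := by
    ext x; cases x <;> rfl
  rw [this]

/-- existential elementarity (with parameters) -/
theorem exists_of_elem {β : Type} [Finite β] (ψ : L.Formula (β ⊕ M))
    (hy : ∃ y : β → P, ψ.Realize (Sum.elim y h)) : ∃ y : β → M, ψ.Realize (Sum.elim y id) := by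
  let χ : L.Formula M := Formula.iExs β (ψ.relabel Sum.swap)
  have h1 : ∀ {Q : Type} [L.Structure Q] (v : M → Q),
      χ.Realize v ↔ ∃ y : β → Q, ψ.Realize (Sum.elim y v) := by
    intro Q _ v
    simp only [χ, Formula.realize_iExs, Formula.realize_relabel]
    refine exists_congr (fun y => ?_)
    have : (fun a => Sum.elim v y a) ∘ Sum.swap = Sum.elim y v := by
      ext x; cases x <;> rfl
    simp only [this]
  have h2 := (h1 (h : M → P)).2 hy
  have h3 := (h.map_formula χ id).1 h2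
  exact (h1 id).1 h3

/-- universal elementarity (with parameters) -/
theorem forall_of_elem {β : Type} [Finite β] (ψ : L.Formula (β ⊕ M))
    (hy : ∀ y : β → M, ψ.Realize (Sum.elim y id)) : ∀ y : β → P, ψ.Realize (Sum.elim y h) := by
  by_contra hc
  push Not at hc
  obtain ⟨y, hy'⟩ := hc
  obtain ⟨z, hz⟩ := exists_of_elem h (∼ψ) ⟨y, by rw [Formula.realize_not]; exact hy'⟩
  rw [Formula.realize_not] at hz
  exact hz (hy z)

end elem

/-! ### ultrafilters -/

theorem exists_ultra_of_fip {X I : Type} [Nonempty I] (S : I → Set X)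
    (hdir : ∀ i j, ∃ k, S k ⊆ S i ∩ S j) (hne : ∀ i, (S i).Nonempty) :
    ∃ F : Ultrafilter X, ∀ i, ∀ᶠ x in F, x ∈ S i := by
  have hX : Nonempty X := let ⟨x, _⟩ := hne (Classical.arbitrary I); ⟨x⟩
  have hneb : NeBot (⨅ i, 𝓟 (S i)) := by
    refine iInf_neBot_of_directed ?_ (fun i => principal_neBot_iff.2 (hne i))
    intro i j
    obtain ⟨k, hk⟩ := hdir i j
    refine ⟨k, ?_, ?_⟩
    · exact principal_mono.2 (fun x hx => (hk hx).1)
    · exact principal_mono.2 (fun x hx => (hk hx).2)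
  obtain ⟨F, hF⟩ := Ultrafilter.exists_le (⨅ i, 𝓟 (S i))
  refine ⟨F, fun i => ?_⟩
  have : (F : Filter X) ≤ 𝓟 (S i) := hF.trans (iInf_le _ i)
  exact le_principal_iff.1 this

/-- `N` realises all finitary types over `M`. -/
def RealizesTypes {M N : Type} [L.Structure M] [L.Structure N] (f : M ↪ₑ[L] N) : Prop :=
  ∀ (m : ℕ) (M' : Type) [L.Structure M'] (h : M ↪ₑ[L] M') (d : Fin m → M'),
    ∃ b : Fin m → N, ∀ (k : ℕ) (ψ : L.Formula (Fin m ⊕ Fin k)) (c : Fin k → M),
      (ψ.Realize (Sum.elim d (fun i => h (c i))) ↔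
        ψ.Realize (Sum.elim b (fun i => f (c i))))

section
variable {M N P : Type} [L.Structure M] [L.Structure N] [L.Structure P]

/-- `b` (in `N`) realises the type over `M` of the ultrafilter `F` on tuples of `P ≻ M` -/
def Rz {α : Type} (f : M ↪ₑ[L] N) (h : M ↪ₑ[L] P) (F : Ultrafilter (α → P)) (b : α → N) :
    Prop :=
  ∀ ψ : L.Formula (α ⊕ M), ψ.Realize (Sum.elim b f) ↔ ∀ᶠ y in F, ψ.Realize (Sum.elim y h)

theorem exists_rz [Nonempty M] (f : M ↪ₑ[L] N) (hN : RealizesTypes f) (h : M ↪ₑ[L] P)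
    {α : Type} [Finite α] (F : Ultrafilter (α → P)) : ∃ b : α → N, Rz f h F b := by
  have hP : Nonempty P := ⟨h (Classical.arbitrary M)⟩
  obtain ⟨n, ⟨e⟩⟩ := Finite.exists_equiv_fin α
  let U := (F : Filter (α → P)).Product (fun _ => P)
  let diag : M → U := fun x => ((fun _ => h x : (α → P) → P) : U)
  let h' : M ↪ₑ[L] U :=
    { toFun := diag
      map_formula' := by
        intro k ψ x
        have := Ultraproduct.realize_formula_cast (u := F) (M := fun _ => P) ψ
          (fun i (_ : α → P) => h (x i))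
        refine (this.trans ?_)
        rw [Filter.eventually_const]
        exact h.map_formula ψ x }
  obtain ⟨b₀, hb₀⟩ := hN n U h' (fun j => ((fun y : α → P => y (e.symm j)) : U))
  refine ⟨fun i => b₀ (e i), fun ψ => ?_⟩
  obtain ⟨k, c, t, ht⟩ := exists_fin_params {ψ.relabel (Sum.map e id : α ⊕ M → Fin n ⊕ M)}
  have ht' := fun (Q : Type) [L.Structure Q] (y : Fin n → Q) (w : M → Q) =>
    ht _ (Finset.mem_singleton_self _) Q y w
  have key := hb₀ k (t (ψ.relabel (Sum.map e id : α ⊕ M → Fin n ⊕ M))) c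
  rw [ht' N b₀ f] at key
  rw [ht' U _ h', Formula.realize_relabel, Formula.realize_relabel] at key
  have e1 : (Sum.elim b₀ f ∘ (Sum.map e id : α ⊕ M → Fin n ⊕ M)) =
      Sum.elim (fun i => b₀ (e i)) f := by
    ext x; cases x <;> rfl
  rw [e1] at key
  rw [← key]
  have hlos := Ultraproduct.realize_formula_cast (u := F) (M := fun _ => P) ψ
    (Sum.elim (fun (i : α) (y : α → P) => y i) (fun (x : M) (_ : α → P) => h x))
  have e2 : (Sum.elim (fun j => ((fun y : α → P => y (e.symm j)) : U)) h' ∘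
      (Sum.map e id : α ⊕ M → Fin n ⊕ M)) =
      (fun i => ((Sum.elim (fun (i : α) (y : α → P) => y i)
        (fun (x : M) (_ : α → P) => h x) i : (α → P) → P) : U)) := by
    ext x
    cases x with
    | inl a =>
      simp only [Function.comp_apply, Sum.map_inl, Sum.elim_inl, Equiv.symm_apply_apply]
    | inr x => rfl
  refine (iff_of_eq (congrArg (fun v : α ⊕ M → U => ψ.Realize v) e2)).trans ?_
  refine hlos.trans ?_
  refine eventually_congr (Eventually.of_forall (fun y => ?_))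
  have e3 : (fun i => Sum.elim (fun (i : α) (y : α → P) => y i)
      (fun (x : M) (_ : α → P) => h x) i y) = Sum.elim y h := by
    ext x; cases x <;> rfl
  rw [e3]

/-- a type over `M` is finitely satisfiable in `P ≻ M`: it comes from an ultrafilter; moreover
the ultrafilter can be chosen to contain any set compatible with the type. -/
theorem exists_ultra_tp [Nonempty M] (f : M ↪ₑ[L] N) (h : M ↪ₑ[L] P) {α : Type} (b : α → N)
    (C : (α → P) → Prop)
    (hC : ∀ ψ : L.Formula (α ⊕ M), ψ.Realize (Sum.elim b f) →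
      ∃ y : α → P, ψ.Realize (Sum.elim y h) ∧ C y) :
    ∃ F : Ultrafilter (α → P), Rz f h F b ∧ ∀ᶠ y in F, C y := by
  let I := {ψ : L.Formula (α ⊕ M) // ψ.Realize (Sum.elim b f)}
  have hI : Nonempty I := ⟨⟨⊤, Formula.realize_top.2 trivial⟩⟩
  obtain ⟨F, hF⟩ := exists_ultra_of_fip (X := α → P) (I := I)
    (fun ψ => {y | ψ.1.Realize (Sum.elim y h) ∧ C y})
    (by
      rintro ⟨ψ₁, h₁⟩ ⟨ψ₂, h₂⟩
      refine ⟨⟨ψ₁ ⊓ ψ₂, Formula.realize_inf.2 ⟨h₁, h₂⟩⟩, ?_⟩
      rintro y ⟨hy, hc⟩
      rw [Formula.realize_inf] at hy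
      exact ⟨⟨hy.1, hc⟩, ⟨hy.2, hc⟩⟩)
    (by rintro ⟨ψ, hψ⟩; exact hC ψ hψ)
  refine ⟨F, fun ψ => ⟨fun hψ => (hF ⟨ψ, hψ⟩).mono (fun y hy => hy.1), fun hψ => ?_⟩,
    (hF hI.some).mono (fun y hy => hy.2)⟩
  by_contra hn
  have h1 := hF ⟨∼ψ, by rw [Formula.realize_not]; exact hn⟩
  obtain ⟨y, hy1, hy2⟩ := (h1.and hψ).exists
  have := hy1.1
  rw [Formula.realize_not] at this
  exact this hy2

theorem exists_ultra_tp' [Nonempty M] (f : M ↪ₑ[L] N) (h : M ↪ₑ[L] P) {α : Type} [Finite α]
    (b : α → N) : ∃ F : Ultrafilter (α → P), Rz f h F b := by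
  obtain ⟨F, hF, _⟩ := exists_ultra_tp f h b (fun _ => True) (by
    intro ψ hψ
    obtain ⟨y, hy⟩ := exists_of_elem f ψ ⟨b, hψ⟩
    exact ⟨fun i => h (y i), (realize_map h ψ y).2 hy, trivial⟩)
  exact ⟨F, hF⟩

end

end Pool.Agent.FLD394364
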