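import Pool.Agent.Lib.MP_394364_lc.Local

/-!
Finite local determination over submodels of models all of whose types are definable.
-/

set_option autoImplicit false
open FirstOrder FirstOrder.Language Filter

namespace Pool.Agent.FLD394364

variable {L : FirstOrder.Language.{0, 0}}
variable {M N P N' : Type} [L.Structure M] [L.Structure N] [L.Structure P] [L.Structure N']

/-- two tuples of `N` that agree on finitely many formulas with parameters from `M` have types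
over `M` induced by ultrafilters on tuples of `P ≻ M` that agree on these formulas with all
parameters from `P`. -/
theorem pair_uf [Nonempty M] {m k : ℕ} (f : M ↪ₑ[L] N) (h : M ↪ₑ[L] P)
    (Δ : Finset (L.Formula (Fin m ⊕ Fin k))) (b₁ b₀ : Fin m → N)
    (hag : ∀ ψ ∈ Δ, ∀ c : Fin k → M, (ψ.Realize (Sum.elim b₁ (fun i => f (c i))) ↔
      ψ.Realize (Sum.elim b₀ (fun i => f (c i))))) :
    ∃ F₁ F₀ : Ultrafilter (Fin m → P), Rz f h F₁ b₁ ∧ Rz f h F₀ b₀ ∧
      ∀ ψ ∈ Δ, ∀ u : Fin k → P, ((∀ᶠ y in F₁, ψ.Realize (Sum.elim y u)) ↔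
        (∀ᶠ y in F₀, ψ.Realize (Sum.elim y u))) := by
  classical
  let I := {ψ : L.Formula (Fin m ⊕ M) // ψ.Realize (Sum.elim b₁ f)} ×
    {ψ : L.Formula (Fin m ⊕ M) // ψ.Realize (Sum.elim b₀ f)} × Finset (Fin k → P)
  have hI : Nonempty I := ⟨⟨⟨⊤, Formula.realize_top.2 trivial⟩, ⟨⊤, Formula.realize_top.2 trivial⟩,
    ∅⟩⟩
  obtain ⟨G, hG⟩ := exists_ultra_of_fip (X := (Fin m → P) × (Fin m → P)) (I := I)
    (fun i => {y | i.1.1.Realize (Sum.elim y.1 h) ∧ i.2.1.1.Realize (Sum.elim y.2 h) ∧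
      ∀ u ∈ i.2.2, ∀ ψ ∈ Δ, (ψ.Realize (Sum.elim y.1 u) ↔ ψ.Realize (Sum.elim y.2 u))})
    (by
      rintro ⟨⟨ψ₁, h₁⟩, ⟨ψ₀, h₀⟩, U⟩ ⟨⟨ψ₁', h₁'⟩, ⟨ψ₀', h₀'⟩, U'⟩
      refine ⟨⟨⟨ψ₁ ⊓ ψ₁', Formula.realize_inf.2 ⟨h₁, h₁'⟩⟩,
        ⟨ψ₀ ⊓ ψ₀', Formula.realize_inf.2 ⟨h₀, h₀'⟩⟩, U ∪ U'⟩, ?_⟩
      rintro y ⟨hy1, hy2, hy3⟩
      rw [Formula.realize_inf] at hy1 hy2
      exact ⟨⟨hy1.1, hy2.1, fun u hu => hy3 u (Finset.mem_union_left _ hu)⟩,
        ⟨hy1.2, hy2.2, fun u hu => hy3 u (Finset.mem_union_right _ hu)⟩⟩)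
    (by
      rintro ⟨⟨ψ₁, h₁⟩, ⟨ψ₀, h₀⟩, U⟩
      -- the formula `∃ y y', ψ₁(y) ∧ ψ₀(y') ∧ ⋀ (χ(y;u) ↔ χ(y';u))`
      let v₁ : Fin m ⊕ M → ((U × Fin k) ⊕ M) ⊕ (Fin m ⊕ Fin m) :=
        Sum.elim (fun i => Sum.inr (Sum.inl i)) (fun x => Sum.inl (Sum.inr x))
      let v₀ : Fin m ⊕ M → ((U × Fin k) ⊕ M) ⊕ (Fin m ⊕ Fin m) :=
        Sum.elim (fun i => Sum.inr (Sum.inr i)) (fun x => Sum.inl (Sum.inr x))
      let w₁ : U → Fin m ⊕ Fin k → ((U × Fin k) ⊕ M) ⊕ (Fin m ⊕ Fin m) := fun u =>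
        Sum.elim (fun i => Sum.inr (Sum.inl i)) (fun t => Sum.inl (Sum.inl (u, t)))
      let w₀ : U → Fin m ⊕ Fin k → ((U × Fin k) ⊕ M) ⊕ (Fin m ⊕ Fin m) := fun u =>
        Sum.elim (fun i => Sum.inr (Sum.inr i)) (fun t => Sum.inl (Sum.inl (u, t)))
      let Ξ : L.Formula ((U × Fin k) ⊕ M) := Formula.iExs (Fin m ⊕ Fin m)
        (ψ₁.relabel v₁ ⊓ (ψ₀.relabel v₀ ⊓ Formula.iInf (fun p : Δ × U =>
          (p.1.1.relabel (w₁ p.2)).iff (p.1.1.relabel (w₀ p.2)))))
      have hΞ : ∀ {Q : Type} [L.Structure Q] (u : U × Fin k → Q) (p : M → Q),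
          Ξ.Realize (Sum.elim u p) ↔ ∃ y : Fin m ⊕ Fin m → Q,
            ψ₁.Realize (Sum.elim (fun i => y (Sum.inl i)) p) ∧
            ψ₀.Realize (Sum.elim (fun i => y (Sum.inr i)) p) ∧
            ∀ q : Δ × U, (q.1.1.Realize (Sum.elim (fun i => y (Sum.inl i)) (fun t => u (q.2, t))) ↔
              q.1.1.Realize (Sum.elim (fun i => y (Sum.inr i)) (fun t => u (q.2, t)))) := by
        intro Q _ u p
        simp only [Ξ]
        rw [Formula.realize_iExs]
        refine exists_congr (fun y => ?_)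
        rw [Formula.realize_inf, Formula.realize_inf, Formula.realize_relabel,
          Formula.realize_relabel, Formula.realize_iInf]
        have e1 : Sum.elim (Sum.elim u p) y ∘ v₁ = Sum.elim (fun i => y (Sum.inl i)) p := by
          ext x; cases x <;> rfl
        have e2 : Sum.elim (Sum.elim u p) y ∘ v₀ = Sum.elim (fun i => y (Sum.inr i)) p := by
          ext x; cases x <;> rfl
        have e3 : ∀ q : U, Sum.elim (Sum.elim u p) y ∘ w₁ q =
            Sum.elim (fun i => y (Sum.inl i)) (fun t => u (q, t)) := by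
          intro q; ext x; cases x <;> rfl
        have e4 : ∀ q : U, Sum.elim (Sum.elim u p) y ∘ w₀ q =
            Sum.elim (fun i => y (Sum.inr i)) (fun t => u (q, t)) := by
          intro q; ext x; cases x <;> rfl
        rw [e1, e2]
        refine and_congr Iff.rfl (and_congr Iff.rfl (forall_congr' (fun q => ?_)))
        rw [Formula.realize_iff, Formula.realize_relabel, Formula.realize_relabel, e3, e4]
      have hM : ∀ u : U × Fin k → M, Ξ.Realize (Sum.elim u id) := by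
        intro u
        rw [← realize_map f, hΞ]
        refine ⟨Sum.elim b₁ b₀, h₁, h₀, ?_⟩
        rintro ⟨ψ, u'⟩
        exact hag ψ.1 ψ.2 (fun t => u (u', t))
      have hP := forall_of_elem h Ξ hM (fun q => q.1.1 q.2)
      rw [hΞ] at hP
      obtain ⟨y, hy1, hy2, hy3⟩ := hP
      exact ⟨(fun i => y (Sum.inl i), fun i => y (Sum.inr i)), hy1, hy2,
        fun u hu ψ hψ => hy3 (⟨ψ, hψ⟩, ⟨u, hu⟩)⟩)
  have hrz : ∀ (π : (Fin m → P) × (Fin m → P) → (Fin m → P)) (b : Fin m → N),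
      (∀ ψ : L.Formula (Fin m ⊕ M), ψ.Realize (Sum.elim b f) →
        ∀ᶠ y in G, ψ.Realize (Sum.elim (π y) h)) → Rz f h (G.map π) b := by
    intro π b hb ψ
    refine ⟨fun hψ => hb ψ hψ, fun hψ => ?_⟩
    by_contra hn
    have h1 := hb (∼ψ) (by rw [Formula.realize_not]; exact hn)
    have h2 : ∀ᶠ y in G, ψ.Realize (Sum.elim (π y) h) := hψ
    obtain ⟨y, hy1, hy2⟩ := (h1.and h2).exists
    rw [Formula.realize_not] at hy1
    exact hy1 hy2
  refine ⟨G.map Prod.fst, G.map Prod.snd, hrz _ _ ?_, hrz _ _ ?_, ?_⟩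
  · intro ψ hψ
    exact (hG ⟨⟨ψ, hψ⟩, ⟨⊤, Formula.realize_top.2 trivial⟩, ∅⟩).mono (fun y hy => hy.1)
  · intro ψ hψ
    exact (hG ⟨⟨⊤, Formula.realize_top.2 trivial⟩, ⟨ψ, hψ⟩, ∅⟩).mono (fun y hy => hy.2.1)
  · intro ψ hψ u
    have h1 := hG ⟨⟨⊤, Formula.realize_top.2 trivial⟩, ⟨⊤, Formula.realize_top.2 trivial⟩, {u}⟩
    have h2 : ∀ᶠ (y : (Fin m → P) × (Fin m → P)) in G,
        (ψ.Realize (Sum.elim y.1 u) ↔ ψ.Realize (Sum.elim y.2 u)) :=
      h1.mono (fun y hy => hy.2.2 u (Finset.mem_singleton_self _) ψ hψ)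
    change (∀ᶠ (y : (Fin m → P) × (Fin m → P)) in G, ψ.Realize (Sum.elim y.1 u)) ↔
      (∀ᶠ (y : (Fin m → P) × (Fin m → P)) in G, ψ.Realize (Sum.elim y.2 u))
    exact Filter.eventually_congr h2

/-- all (finitary) types over `P` are definable -/
def TypesDefinable (L : FirstOrder.Language.{0, 0}) (P : Type) [L.Structure P] : Prop :=
  ∀ (Q : Type) [L.Structure Q] (i : P ↪ₑ[L] Q) (r k : ℕ) (e : Fin r → Q)
    (ψ : L.Formula (Fin r ⊕ Fin k)), ∃ (l : ℕ) (δ : L.Formula (Fin k ⊕ Fin l)) (u : Fin l → P),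
      ∀ c : Fin k → P, (ψ.Realize (Sum.elim e (fun t => i (c t))) ↔
        δ.Realize (Sum.elim c u))

theorem def_of_ultra [Nonempty P] (hP : TypesDefinable L P) {α κ : Type} [Finite α] [Finite κ]
    (V : Ultrafilter (α → P)) (ψ : L.Formula (α ⊕ κ)) :
    ∃ δ : L.Formula (κ ⊕ P), ∀ c : κ → P,
      ((∀ᶠ v in V, ψ.Realize (Sum.elim v c)) ↔ δ.Realize (Sum.elim c id)) := by
  obtain ⟨r, ⟨e⟩⟩ := Finite.exists_equiv_fin α
  obtain ⟨k, ⟨e'⟩⟩ := Finite.exists_equiv_fin κ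
  let U := (V : Filter (α → P)).Product (fun _ => P)
  let i : P ↪ₑ[L] U :=
    { toFun := fun x => ((fun _ => x : (α → P) → P) : U)
      map_formula' := by
        intro k ψ x
        have := Ultraproduct.realize_formula_cast (u := V) (M := fun _ => P) ψ
          (fun i (_ : α → P) => x i)
        refine (this.trans ?_)
        rw [Filter.eventually_const] }
  obtain ⟨l, δ, u, hδ⟩ := hP U i r k (fun j => ((fun y : α → P => y (e.symm j)) : U))
    (ψ.relabel (Sum.map e e'))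
  refine ⟨δ.relabel (Sum.map e'.symm u), fun c => ?_⟩
  have h1 := hδ (fun t => c (e'.symm t))
  rw [Formula.realize_relabel] at h1 ⊢
  have e1 : (Sum.elim c id ∘ (Sum.map e'.symm u : Fin k ⊕ Fin l → κ ⊕ P)) =
      Sum.elim (fun t => c (e'.symm t)) u := by
    ext x; cases x <;> rfl
  rw [e1, ← h1]
  have hlos := Ultraproduct.realize_formula_cast (u := V) (M := fun _ => P) ψ
    (Sum.elim (fun (i : α) (y : α → P) => y i) (fun (x : κ) (_ : α → P) => c x))
  have e2 : (Sum.elim (fun j => ((fun y : α → P => y (e.symm j)) : U))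
      (fun t => i (c (e'.symm t))) ∘ (Sum.map e e' : α ⊕ κ → Fin r ⊕ Fin k)) =
      (fun x => ((Sum.elim (fun (i : α) (y : α → P) => y i)
        (fun (x : κ) (_ : α → P) => c x) x : (α → P) → P) : U)) := by
    ext x
    cases x with
    | inl a =>
      simp only [Function.comp_apply, Sum.map_inl, Sum.elim_inl, Equiv.symm_apply_apply]
    | inr x =>
      simp only [Function.comp_apply, Sum.map_inr, Sum.elim_inr, Equiv.symm_apply_apply]
      rfl
  refine Iff.trans ?_ (iff_of_eq (congrArg (fun v : α ⊕ κ → U => ψ.Realize v) e2)).symm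
  refine Iff.trans ?_ hlos.symm
  refine eventually_congr (Eventually.of_forall (fun y => ?_))
  have e3 : (fun i => Sum.elim (fun (i : α) (y : α → P) => y i)
      (fun (x : κ) (_ : α → P) => c x) i y) = Sum.elim y c := by
    ext x; cases x <;> rfl
  rw [e3]

section
variable {f : M ↪ₑ[L] N} {g : N ↪ₑ[L] N'} {n m : ℕ} {a : Fin n → N'}
  {φ : L.Formula (Fin n ⊕ (Fin m ⊕ M))}

/-- **Finite local determination below models with definable types.** -/
theorem fld_of_typesDefinable [Nonempty M] (hN : RealizesTypes f) (hinv : Inv f g a φ)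
    {θ : L.Formula (Fin n ⊕ M)} (hθ : θ.Realize (Sum.elim a (fun x => g (f x)))) {K : ℕ}
    (hK : NoShatter φ θ K (id : M → M)) (h : M ↪ₑ[L] P) (hP : TypesDefinable L P) :
    FLD f (Tr f g a φ) := by
  classical
  have hPne : Nonempty P := ⟨h (Classical.arbitrary M)⟩
  obtain ⟨j, V, hV⟩ := main_lemma hN hinv hθ hK h
  -- finitely many parameters in the formulas `ρ_ε`
  obtain ⟨k, c₀, t, ht⟩ := exists_fin_params
    (Finset.univ.image (fun ε : Fin K → Bool => rho φ θ K ε))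
  -- parameters `z`, `y`, `w`
  let κ := (Fin K × Fin m) ⊕ (Fin m ⊕ Fin k)
  let e : (Fin K × Fin m) ⊕ Fin k → (Fin K × Fin m) ⊕ κ :=
    Sum.elim (fun q => if q.1 < j then Sum.inr (Sum.inl q) else
      if q.1 = j then Sum.inr (Sum.inr (Sum.inl q.2)) else Sum.inl q)
      (fun s => Sum.inr (Sum.inr (Sum.inr s)))
  let V' : Ultrafilter (Fin K × Fin m → P) :=
    V.map (fun (v : Fin K → Fin m → P) (q : Fin K × Fin m) => v q.1 q.2)
  have hδ : ∀ ε : Fin K → Bool, ∃ δ : L.Formula (κ ⊕ P), ∀ c : κ → P,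
      ((∀ᶠ v in V', ((t (rho φ θ K ε)).relabel e).Realize (Sum.elim v c)) ↔
        δ.Realize (Sum.elim c id)) := fun ε => def_of_ultra hP V' _
  choose δ hδ using hδ
  have hδ' : ∀ (ε : Fin K → Bool) (z : Fin K → Fin m → P) (y : Fin m → P),
      (∀ᶠ v in V, (rho φ θ K ε).Realize (Sum.elim (fun q => mix j z y v q.1 q.2) h)) ↔
      (δ ε).Realize (Sum.elim (Sum.elim (fun q : Fin K × Fin m => z q.1 q.2)
        (Sum.elim y (fun s => h (c₀ s)))) id) := by
    intro ε z y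
    rw [← hδ ε]
    change _ ↔ (∀ᶠ (v : Fin K → Fin m → P) in V, ((t (rho φ θ K ε)).relabel e).Realize
      (Sum.elim (fun q : Fin K × Fin m => v q.1 q.2) _))
    refine eventually_congr (Eventually.of_forall (fun v => ?_))
    rw [Formula.realize_relabel]
    rw [← ht _ (Finset.mem_image_of_mem _ (Finset.mem_univ ε)) P]
    have e1 : (Sum.elim (fun q : Fin K × Fin m => v q.1 q.2)
        (Sum.elim (fun q : Fin K × Fin m => z q.1 q.2) (Sum.elim y (fun s => h (c₀ s)))) ∘ e) =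
        Sum.elim (fun q : Fin K × Fin m => mix j z y v q.1 q.2) (fun i => h (c₀ i)) := by
      ext x
      rcases x with ⟨k', i⟩ | s
      · simp only [Function.comp_apply, e, Sum.elim_inl, mix]
        by_cases h1 : k' < j
        · simp [h1]
        · by_cases h2 : k' = j
          · simp [h2]
          · simp [h1, h2]
      · rfl
    rw [e1]
  -- the finitely many formulas in `y`
  let W := (Fin K × Fin m) ⊕ (Fin k ⊕ P)
  let e₂ : κ ⊕ P → Fin m ⊕ W :=
    Sum.elim (Sum.elim (fun q => Sum.inr (Sum.inl q))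
      (Sum.elim (fun i => Sum.inl i) (fun s => Sum.inr (Sum.inr (Sum.inl s)))))
      (fun x => Sum.inr (Sum.inr (Sum.inr x)))
  obtain ⟨k', c', t', ht'⟩ := exists_fin_params
    (Finset.univ.image (fun ε : Fin K → Bool => (δ ε).relabel e₂))
  by_contra hfld
  have hfail : ∃ b₁ b₀ : Fin m → N,
      (∀ ψ ∈ (Finset.univ.image (fun ε : Fin K → Bool => t' ((δ ε).relabel e₂))),
        ∀ c : Fin k' → M, (ψ.Realize (Sum.elim b₁ (fun i => f (c i))) ↔
        ψ.Realize (Sum.elim b₀ (fun i => f (c i))))) ∧ Tr f g a φ b₁ ∧ ¬ Tr f g a φ b₀ := by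
    by_contra hcon
    push Not at hcon
    apply hfld
    refine FLD.of_params (Fin k')
      (Finset.univ.image (fun ε : Fin K → Bool => t' ((δ ε).relabel e₂))) (fun b b' hb => ?_)
    exact ⟨hcon b b' hb, hcon b' b (fun ψ hψ c => (hb ψ hψ c).symm)⟩
  obtain ⟨b₁, b₀, hag, hT₁, hT₀⟩ := hfail
  obtain ⟨F₁, F₀, hF₁, hF₀, hFag⟩ := pair_uf f h _ b₁ b₀ hag
  obtain ⟨ε, z, hz⟩ := hV F₁ F₀ (Val.of_rz hF₁ (by simp [hT₁])) (Val.of_rz hF₀ (by simp [hT₀]))
  apply hz
  simp only [hδ']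
  have key : ∀ y : Fin m → P, (δ ε).Realize (Sum.elim (Sum.elim
      (fun q : Fin K × Fin m => z q.1 q.2) (Sum.elim y (fun s => h (c₀ s)))) id) ↔
      (t' ((δ ε).relabel e₂)).Realize (Sum.elim y (fun i =>
        (Sum.elim (fun q : Fin K × Fin m => z q.1 q.2) (Sum.elim (fun s => h (c₀ s)) id) : W → P)
          (c' i))) := by
    intro y
    rw [ht' _ (Finset.mem_image_of_mem _ (Finset.mem_univ ε)) P, Formula.realize_relabel]
    have e3 : (Sum.elim y (Sum.elim (fun q : Fin K × Fin m => z q.1 q.2)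
        (Sum.elim (fun s => h (c₀ s)) id)) ∘ e₂ : κ ⊕ P → P) =
        Sum.elim (Sum.elim (fun q : Fin K × Fin m => z q.1 q.2)
          (Sum.elim y (fun s => h (c₀ s)))) id := by
      ext x
      rcases x with (q | (i | s)) | x <;> rfl
    rw [e3]
  simp only [key]
  exact hFag _ (Finset.mem_image_of_mem _ (Finset.mem_univ ε)) _

end

end Pool.Agent.FLD394364
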