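import Pool.Agent.Lib.MP_394364_lc.Local

/-!
Finite local determination with finitely many externally definable relations.
-/

set_option autoImplicit false
open FirstOrder FirstOrder.Language Filter

namespace Pool.Agent.FLD394364

variable {L : FirstOrder.Language.{0, 0}}
variable {M N N' : Type} [L.Structure M] [L.Structure N] [L.Structure N']

/-- adding (unused) parameters from `M` to a formula -/
def addParams {n m : ℕ} (M : Type) (φ : L.Formula (Fin n ⊕ Fin m)) :
    L.Formula (Fin n ⊕ (Fin m ⊕ M)) :=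
  φ.relabel (Sum.map id Sum.inl)

omit [L.Structure M] in
theorem realize_addParams {n m : ℕ} {P : Type} [L.Structure P] (φ : L.Formula (Fin n ⊕ Fin m))
    (x : Fin n → P) (y : Fin m → P) (p : M → P) :
    (addParams M φ).Realize (Sum.elim x (Sum.elim y p)) ↔ φ.Realize (Sum.elim x y) := by
  unfold addParams
  rw [Formula.realize_relabel]
  have : (Sum.elim x (Sum.elim y p) ∘ (Sum.map id Sum.inl : Fin n ⊕ Fin m → _)) =
      Sum.elim x y := by
    ext z; cases z <;> rfl
  rw [this]

theorem tr_addParams {f : M ↪ₑ[L] N} {g : N ↪ₑ[L] N'} {n m : ℕ} {a : Fin n → N'}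
    (φ : L.Formula (Fin n ⊕ Fin m)) (b : Fin m → N) :
    Tr f g a (addParams M φ) b ↔ φ.Realize (Sum.elim a (fun i => g (b i))) := by
  unfold Tr
  exact realize_addParams φ a _ _

theorem noShatter_addParams {n m K : ℕ} (φ : L.Formula (Fin n ⊕ Fin m))
    (hK : ∀ b : Fin K → Fin m → M, ¬ ∀ J : Finset (Fin K), ∃ x : Fin n → M, ∀ k : Fin K,
      (φ.Realize (Sum.elim x (b k)) ↔ k ∈ J)) :
    NoShatter (addParams M φ) (⊤ : L.Formula (Fin n ⊕ M)) K (id : M → M) := by
  classical
  intro b hb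
  refine hK b (fun J => ?_)
  obtain ⟨x, _, hx⟩ := hb (fun k => decide (k ∈ J))
  refine ⟨x, fun k => ?_⟩
  have := hx k
  rw [realize_addParams] at this
  rw [this]
  simp

theorem inv_addParams {f : M ↪ₑ[L] N} {g : N ↪ₑ[L] N'} {n m : ℕ} {a : Fin n → N'}
    (φ : L.Formula (Fin n ⊕ Fin m))
    (hinv : ∀ (b b' : Fin m → N),
      (∀ (k : ℕ) (ψ : L.Formula (Fin m ⊕ Fin k)) (c : Fin k → M),
        (ψ.Realize (Sum.elim b (fun i => f (c i))) ↔
          ψ.Realize (Sum.elim b' (fun i => f (c i))))) →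
      (φ.Realize (Sum.elim a (fun i => g (b i))) ↔
        φ.Realize (Sum.elim a (fun i => g (b' i))))) :
    Inv f g a (addParams M φ) := by
  intro b b' hbb
  rw [tr_addParams, tr_addParams]
  refine hinv b b' (fun k ψ c => ?_)
  have := hbb (ψ.relabel (Sum.map id c))
  rw [Formula.realize_relabel, Formula.realize_relabel] at this
  have e : ∀ y : Fin m → N, (Sum.elim y f ∘ (Sum.map id c : Fin m ⊕ Fin k → _)) =
      Sum.elim y (fun i => f (c i)) := by
    intro y; ext z; cases z <;> rfl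
  rw [e, e] at this
  exact this

theorem rz_of_fin {f : M ↪ₑ[L] N} {m : ℕ} {F : Ultrafilter (Fin m → M)} {b : Fin m → N}
    (hb : ∀ (s : ℕ) (ψ : L.Formula (Fin m ⊕ Fin s)) (c : Fin s → M),
      (ψ.Realize (Sum.elim b (fun i => f (c i))) ↔ ∀ᶠ y in F, ψ.Realize (Sum.elim y c))) :
    Rz f (ElementaryEmbedding.refl L M) F b := by
  intro ψ
  obtain ⟨k, c, t, ht⟩ := exists_fin_params {ψ}
  have ht' := ht ψ (Finset.mem_singleton_self _)
  rw [← ht' N b f, hb k (t ψ) c]
  refine eventually_congr (Eventually.of_forall (fun y => ?_))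
  exact ht' M y (ElementaryEmbedding.refl L M)

section
variable {f : M ↪ₑ[L] N} {g : N ↪ₑ[L] N'} {n m : ℕ} {a : Fin n → N'}
  {φ : L.Formula (Fin n ⊕ (Fin m ⊕ M))}

/-- **External local determination.** -/
theorem external [Nonempty M] (hN : RealizesTypes f) (hinv : Inv f g a φ)
    {θ : L.Formula (Fin n ⊕ M)} (hθ : θ.Realize (Sum.elim a (fun x => g (f x)))) {K : ℕ}
    (hK : NoShatter φ θ K (id : M → M)) :
    ∃ (k l : ℕ) (d : Fin l → N) (Δ : Finset (L.Formula (Fin m ⊕ (Fin k ⊕ Fin l)))),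
      ∀ (F₁ F₀ : Ultrafilter (Fin m → M)) (b₁ b₀ : Fin m → N),
        Rz f (ElementaryEmbedding.refl L M) F₁ b₁ → Rz f (ElementaryEmbedding.refl L M) F₀ b₀ →
        (∀ ψ ∈ Δ, ∀ e : Fin k → M,
          ((∀ᶠ (y : Fin m → M) in F₁, ψ.Realize (Sum.elim (fun i => f (y i))
            (Sum.elim (fun i => f (e i)) d))) ↔
          (∀ᶠ (y : Fin m → M) in F₀, ψ.Realize (Sum.elim (fun i => f (y i))
            (Sum.elim (fun i => f (e i)) d))))) →
        (Tr f g a φ b₁ ↔ Tr f g a φ b₀) := by
  classical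
  obtain ⟨j, V, hV⟩ := main_lemma hN hinv hθ hK (ElementaryEmbedding.refl L M)
  obtain ⟨β, hβ⟩ := exists_rz f hN (ElementaryEmbedding.refl L M)
    (V.map (fun (v : Fin K → Fin m → M) (q : Fin K × Fin m) => v q.1 q.2))
  -- variables `y`, `z`; parameters `v` (realised by `β`) and `M`
  let A := Fin m ⊕ (Fin K × Fin m)
  let W := (Fin K × Fin m) ⊕ M
  let e : (Fin K × Fin m) ⊕ M → A ⊕ W :=
    Sum.elim (fun q => if q.1 < j then Sum.inl (Sum.inr q) else
      if q.1 = j then Sum.inl (Sum.inl q.2) else Sum.inr (Sum.inl q))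
      (fun x => Sum.inr (Sum.inr x))
  obtain ⟨l, c₀, t, ht⟩ := exists_fin_params
    (Finset.univ.image (fun ε : Fin K → Bool => (rho φ θ K ε).relabel e))
  let e' : A ⊕ Fin l → Fin m ⊕ (Fin (K * m) ⊕ Fin l) :=
    Sum.elim (Sum.elim Sum.inl (fun q => Sum.inr (Sum.inl (finProdFinEquiv q))))
      (fun s => Sum.inr (Sum.inr s))
  refine ⟨K * m, l, fun s => (Sum.elim β f : W → N) (c₀ s),
    Finset.univ.image (fun ε : Fin K → Bool => (t ((rho φ θ K ε).relabel e)).relabel e'), ?_⟩
  have main : ∀ (F₁ F₀ : Ultrafilter (Fin m → M)) (b₁ b₀ : Fin m → N),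
        Rz f (ElementaryEmbedding.refl L M) F₁ b₁ → Rz f (ElementaryEmbedding.refl L M) F₀ b₀ →
        (∀ ψ ∈ (Finset.univ.image (fun ε : Fin K → Bool =>
            (t ((rho φ θ K ε).relabel e)).relabel e')), ∀ e : Fin (K * m) → M,
          ((∀ᶠ (y : Fin m → M) in F₁, ψ.Realize (Sum.elim (fun i => f (y i))
            (Sum.elim (fun i => f (e i)) (fun s => (Sum.elim β f : W → N) (c₀ s))))) ↔
          (∀ᶠ (y : Fin m → M) in F₀, ψ.Realize (Sum.elim (fun i => f (y i))
            (Sum.elim (fun i => f (e i)) (fun s => (Sum.elim β f : W → N) (c₀ s))))))) →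
        (Tr f g a φ b₁ → Tr f g a φ b₀) := by
    intro F₁ F₀ b₁ b₀ hF₁ hF₀ hag hT₁
    by_contra hT₀
    obtain ⟨ε, z, hz⟩ := hV F₁ F₀ (Val.of_rz hF₁ (by simp [hT₁])) (Val.of_rz hF₀ (by simp [hT₀]))
    apply hz
    have key : ∀ y : Fin m → M,
        ((∀ᶠ v in V, (rho φ θ K ε).Realize (Sum.elim (fun q => mix j z y v q.1 q.2)
          (ElementaryEmbedding.refl L M))) ↔
        ((t ((rho φ θ K ε).relabel e)).relabel e').Realize (Sum.elim (fun i => f (y i))
          (Sum.elim (fun i => f ((fun i => z (finProdFinEquiv.symm i).1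
            (finProdFinEquiv.symm i).2 : Fin (K * m) → M) i))
            (fun s => (Sum.elim β f : W → N) (c₀ s))))) := by
      intro y
      rw [Formula.realize_relabel]
      have e1 : (Sum.elim (fun i => f (y i))
          (Sum.elim (fun i => f ((fun i => z (finProdFinEquiv.symm i).1
            (finProdFinEquiv.symm i).2 : Fin (K * m) → M) i))
            (fun s => (Sum.elim β f : W → N) (c₀ s))) ∘ e' : A ⊕ Fin l → N) =
          Sum.elim (Sum.elim (fun i => f (y i)) (fun q => f (z q.1 q.2)))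
            (fun s => (Sum.elim β f : W → N) (c₀ s)) := by
        ext x
        rcases x with (i | q) | s
        · rfl
        · simp only [Function.comp_apply, e', Sum.elim_inl, Sum.elim_inr,
            Equiv.symm_apply_apply]
        · rfl
      rw [e1, ht _ (Finset.mem_image_of_mem _ (Finset.mem_univ ε)) N, Formula.realize_relabel]
      -- pass to `V` through `β`
      let e₂ : (Fin K × Fin m) ⊕ M → (Fin K × Fin m) ⊕ M :=
        Sum.elim (fun q => if q.1 < j then Sum.inr (z q.1 q.2) else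
          if q.1 = j then Sum.inr (y q.2) else Sum.inl q) (fun x => Sum.inr x)
      have h1 := hβ ((rho φ θ K ε).relabel e₂)
      rw [Formula.realize_relabel] at h1
      have e3 : (Sum.elim (Sum.elim (fun i => f (y i)) (fun q => f (z q.1 q.2)))
          (Sum.elim β f : W → N) ∘ e : (Fin K × Fin m) ⊕ M → N) = Sum.elim β f ∘ e₂ := by
        ext x
        rcases x with ⟨k', i⟩ | x
        · by_cases h1 : k' < j
          · simp [e, e₂, h1]
          · by_cases h2 : k' = j
            · simp [e, e₂, h2]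
            · simp [e, e₂, h1, h2]
        · rfl
      rw [e3, h1]
      change _ ↔ (∀ᶠ (v : Fin K → Fin m → M) in V, ((rho φ θ K ε).relabel e₂).Realize
        (Sum.elim (fun q : Fin K × Fin m => v q.1 q.2) (ElementaryEmbedding.refl L M)))
      refine eventually_congr (Eventually.of_forall (fun v => ?_))
      rw [Formula.realize_relabel]
      have e4 : (Sum.elim (fun q : Fin K × Fin m => v q.1 q.2)
          (ElementaryEmbedding.refl L M) ∘ e₂ : (Fin K × Fin m) ⊕ M → M) =
          Sum.elim (fun q : Fin K × Fin m => mix j z y v q.1 q.2)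
            (ElementaryEmbedding.refl L M) := by
        ext x
        rcases x with ⟨k', i⟩ | x
        · by_cases h1 : k' < j
          · simp [e₂, mix, h1]
          · by_cases h2 : k' = j
            · simp [e₂, mix, h2]
            · simp [e₂, mix, h1, h2]
        · rfl
      rw [e4]
    simp only [key]
    exact hag _ (Finset.mem_image_of_mem _ (Finset.mem_univ ε)) _
  intro F₁ F₀ b₁ b₀ hF₁ hF₀ hag
  exact ⟨main F₁ F₀ b₁ b₀ hF₁ hF₀ hag,
    main F₀ F₁ b₀ b₁ hF₀ hF₁ (fun ψ hψ e => (hag ψ hψ e).symm)⟩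

end

end Pool.Agent.FLD394364
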