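import Pool.Agent.Lib.MP_394364_lc.Tools

/-!
Finite local determination of invariant types in NIP theories: the proof.
-/

set_option autoImplicit false
open FirstOrder FirstOrder.Language Filter

namespace Pool.Agent.FLD394364

variable {L : FirstOrder.Language.{0, 0}}
variable {M N : Type} [L.Structure M] [L.Structure N]

/-- the statement `E_k` for one family `ψ`: partial types `Λ J` over `M` with `D`-pattern `J`,
all of which can realise one and the same `ψ`-pattern over any given tuple of `M` -/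
def EEp (f : M ↪ₑ[L] N) {m : ℕ} (D : (Fin m → N) → Prop) (k : ℕ) {V ι : Type}
    (ψ : ι → L.Formula ((Fin k × Fin m) ⊕ V)) : Prop :=
  ∃ Λ : (Fin k → Bool) → Set (L.Formula ((Fin k × Fin m) ⊕ M)),
    (∀ J y, Sat f (Λ J) y → ∀ j, (D (fun i => y (j, i)) ↔ J j = true)) ∧
    ∀ z : V → M, ∃ π : ι → Bool, ∀ J, ∃ y : Fin k × Fin m → N, Sat f (Λ J) y ∧
      ∀ i, ((ψ i).Realize (Sum.elim y (fun v => f (z v))) ↔ π i = true)

/-- the statement `E_k` -/
def EE (f : M ↪ₑ[L] N) {m : ℕ} (D : (Fin m → N) → Prop) (k : ℕ) : Prop :=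
  ∀ (V ι : Type) [Finite V] [Finite ι] (ψ : ι → L.Formula ((Fin k × Fin m) ⊕ V)), EEp f D k ψ

theorem EE_zero {f : M ↪ₑ[L] N} {m : ℕ} {D : (Fin m → N) → Prop} : EE f D 0 := by
  classical
  intro V ι _ _ ψ
  refine ⟨fun _ => ∅, fun J y _ j => j.elim0, fun z => ?_⟩
  let y₀ : Fin 0 × Fin m → N := fun p => p.1.elim0
  refine ⟨fun i => decide ((ψ i).Realize (Sum.elim y₀ (fun v => f (z v)))), fun J => ⟨y₀, ?_, ?_⟩⟩
  · intro ψ hψ
    exact absurd hψ (Set.notMem_empty ψ)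
  · intro i
    simp

/-- `E_k` fails for large `k`, by NIP of `χ` -/
theorem not_EE {f : M ↪ₑ[L] N} {m : ℕ} {D : (Fin m → N) → Prop} (hnip : NIPHyp L M)
    {β : Type} [Finite β] (χ : L.Formula (β ⊕ Fin m))
    (happ : ∀ (K : ℕ) (y : Fin K × Fin m → N), ∃ x : β → N, ∀ j : Fin K,
      (χ.Realize (Sum.elim x (fun i => y (j, i))) ↔ D (fun i => y (j, i)))) :
    ∃ k, ¬ EE f D k := by
  let χ' : L.Formula (β ⊕ (Fin m ⊕ Empty)) := χ.relabel (Sum.map id Sum.inl)
  have hχ' : ∀ {Q : Type} [L.Structure Q] (x : β → Q) (y : Fin m → Q) (w : Empty → Q),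
      χ'.Realize (Sum.elim x (Sum.elim y w)) ↔ χ.Realize (Sum.elim x y) := by
    intro Q _ x y w
    simp only [χ']
    rw [Formula.realize_relabel]
    have : Sum.elim x (Sum.elim y w) ∘ (Sum.map id Sum.inl : β ⊕ Fin m → _) =
        Sum.elim x y := by
      funext q; rcases q with i | i <;> rfl
    rw [this]
  obtain ⟨K, hK⟩ := hnip.bound χ'
  refine ⟨K, fun hE => ?_⟩
  obtain ⟨Λ, hΛ, hpat⟩ := hE (Fin K × Empty) (Fin K → Bool) (fun J => shat χ' J)
  obtain ⟨π, hπ⟩ := hpat (fun q => q.2.elim)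
  have h1 : ∀ J, π J = true := by
    intro J
    obtain ⟨y, hy, hy2⟩ := hπ J
    rw [← hy2 J, realize_shat]
    obtain ⟨x, hx⟩ := happ K y
    refine ⟨x, fun j => ?_⟩
    rw [hχ', hx j, hΛ J y hy j]
  obtain ⟨y, hy, hy2⟩ := hπ (fun _ => true)
  let Φ : L.Formula ((Fin K × Fin m) ⊕ M) :=
    Formula.iInf (fun J : Fin K → Bool =>
      (shat χ' J).relabel (Sum.map id (fun q : Fin K × Empty => q.2.elim)))
  have hΦ : ∀ {Q : Type} [L.Structure Q] (y : Fin K × Fin m → Q) (c : M → Q),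
      Φ.Realize (Sum.elim y c) ↔ ∀ J : Fin K → Bool, ∃ x : β → Q, ∀ j,
        (χ.Realize (Sum.elim x (fun i => y (j, i))) ↔ J j = true) := by
    intro Q _ y c
    simp only [Φ]
    rw [Formula.realize_iInf]
    refine forall_congr' (fun J => ?_)
    rw [Formula.realize_relabel]
    have : Sum.elim y c ∘ (Sum.map id (fun q : Fin K × Empty => q.2.elim) :
        (Fin K × Fin m) ⊕ (Fin K × Empty) → _) = Sum.elim y (fun q => q.2.elim) := by
      funext q
      rcases q with p | q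
      · rfl
      · exact q.2.elim
    rw [this, realize_shat]
    refine exists_congr (fun x => forall_congr' (fun j => ?_))
    rw [hχ']
  obtain ⟨y', hy'⟩ := exists_of_elem f Φ ⟨y, by
    rw [hΦ]
    intro J
    have := (hy2 J).2 (h1 J)
    rw [realize_shat] at this
    obtain ⟨x, hx⟩ := this
    refine ⟨x, fun j => ?_⟩
    rw [← hx j, hχ']⟩
  rw [hΦ] at hy'
  refine hK K le_rfl (fun j => Sum.elim (fun i => y' (j, i)) (fun e => e.elim)) (fun J => ?_)
  obtain ⟨x, hx⟩ := hy' J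
  refine ⟨x, fun j => ?_⟩
  rw [hχ', hx j]

/-! ### data -/

section
variable {f : M ↪ₑ[L] N} {m : ℕ} {k : ℕ} {V ι : Type}

/-- `κ` excludes the pattern `π` of `ψ(·, y; z)` on the realisations of some `Λ J` -/
def Excl (f : M ↪ₑ[L] N) (ψ : ι → L.Formula ((Fin (k + 1) × Fin m) ⊕ V))
    (Λ : (Fin k → Bool) → Set (L.Formula ((Fin k × Fin m) ⊕ M)))
    (z : V → M) (κ : L.Formula (Fin m ⊕ M)) (π : ι → Bool) : Prop :=
  ∃ J, ∀ (y : Fin k × Fin m → N) (v : Fin m → N), Sat f (Λ J) y → κ.Realize (Sum.elim v f) →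
    ¬ ∀ i, ((ψ i).Realize (Sum.elim (ext y v) (fun q => f (z q))) ↔ π i = true)

theorem Excl.mono {ψ : ι → L.Formula ((Fin (k + 1) × Fin m) ⊕ V)}
    {Λ : (Fin k → Bool) → Set (L.Formula ((Fin k × Fin m) ⊕ M))}
    {z : V → M} {κ κ' : L.Formula (Fin m ⊕ M)} {π : ι → Bool} (h : Excl f ψ Λ z κ π)
    (hκ : ∀ v : Fin m → N, κ'.Realize (Sum.elim v f) → κ.Realize (Sum.elim v f)) :
    Excl f ψ Λ z κ' π := by
  obtain ⟨J, hJ⟩ := h
  exact ⟨J, fun y v hy hv => hJ y v hy (hκ v hv)⟩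

/-- a datum for the set `S` of patterns: `κ true` excludes all patterns outside `S`,
`κ false` excludes all patterns in `S` -/
def IsDatum (f : M ↪ₑ[L] N) (ψ : ι → L.Formula ((Fin (k + 1) × Fin m) ⊕ V))
    (Λ : (Fin k → Bool) → Set (L.Formula ((Fin k × Fin m) ⊕ M)))
    (S : Set (ι → Bool)) (z : V → M) (κ : Bool → L.Formula (Fin m ⊕ M)) : Prop :=
  (∀ π ∉ S, Excl f ψ Λ z (κ true) π) ∧ (∀ π ∈ S, Excl f ψ Λ z (κ false) π)

/-- existence of data -/
theorem exists_datum [Nonempty M] (hN : RealizesTypes f) {D : (Fin m → N) → Prop}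
    (hD : ∀ b b' : Fin m → N, (∀ ψ : L.Formula (Fin m ⊕ M), ψ.Realize (Sum.elim b f) →
      ψ.Realize (Sum.elim b' f)) → (D b ↔ D b')) [Finite ι]
    {ψ : ι → L.Formula ((Fin (k + 1) × Fin m) ⊕ V)} (hψ : ¬ EEp f D (k + 1) ψ)
    {Λ : (Fin k → Bool) → Set (L.Formula ((Fin k × Fin m) ⊕ M))}
    (hΛ : ∀ J y, Sat f (Λ J) y → ∀ j, (D (fun i => y (j, i)) ↔ J j = true))
    (b : Bool → Fin m → N) (hb : ∀ c, D (b c) ↔ c = true) :
    ∃ (S : Set (ι → Bool)) (z : V → M) (κ : Bool → L.Formula (Fin m ⊕ M)),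
      (∀ c, (κ c).Realize (Sum.elim (b c) f)) ∧ IsDatum f ψ Λ S z κ := by
  classical
  -- the partial types `Λ' J' = Λ (J' ∘ succ) ∪ tp(b (J' 0)/M)`
  let Λ' : (Fin (k + 1) → Bool) → Set (L.Formula ((Fin (k + 1) × Fin m) ⊕ M)) := fun J' =>
    {χ | (∃ χ₀ ∈ Λ (fun j => J' j.succ), χ = χ₀.relabel (Sum.map (fun p => (p.1.succ, p.2)) id)) ∨
      ∃ χ₀ : L.Formula (Fin m ⊕ M), χ₀.Realize (Sum.elim (b (J' 0)) f) ∧
        χ = χ₀.relabel (Sum.map (fun i => (0, i)) id)}
  have hr1 : ∀ (χ₀ : L.Formula ((Fin k × Fin m) ⊕ M)) (y : Fin (k + 1) × Fin m → N),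
      (χ₀.relabel (Sum.map (fun p : Fin k × Fin m => (p.1.succ, p.2)) id)).Realize
        (Sum.elim y f) ↔ χ₀.Realize (Sum.elim (fun p => y (p.1.succ, p.2)) f) := by
    intro χ₀ y
    rw [Formula.realize_relabel]
    have : Sum.elim y f ∘ (Sum.map (fun p : Fin k × Fin m => (p.1.succ, p.2)) id :
        (Fin k × Fin m) ⊕ M → _) = Sum.elim (fun p => y (p.1.succ, p.2)) f := by
      funext q; rcases q with p | x <;> rfl
    rw [this]
  have hr2 : ∀ (χ₀ : L.Formula (Fin m ⊕ M)) (y : Fin (k + 1) × Fin m → N),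
      (χ₀.relabel (Sum.map (fun i : Fin m => ((0 : Fin (k + 1)), i)) id)).Realize
        (Sum.elim y f) ↔ χ₀.Realize (Sum.elim (fun i => y (0, i)) f) := by
    intro χ₀ y
    rw [Formula.realize_relabel]
    have : Sum.elim y f ∘ (Sum.map (fun i : Fin m => ((0 : Fin (k + 1)), i)) id :
        Fin m ⊕ M → _) = Sum.elim (fun i => y (0, i)) f := by
      funext q; rcases q with p | x <;> rfl
    rw [this]
  have hsat : ∀ J' (y : Fin (k + 1) × Fin m → N), Sat f (Λ' J') y ↔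
      Sat f (Λ (fun j => J' j.succ)) (fun p => y (p.1.succ, p.2)) ∧
      ∀ χ₀ : L.Formula (Fin m ⊕ M), χ₀.Realize (Sum.elim (b (J' 0)) f) →
        χ₀.Realize (Sum.elim (fun i => y (0, i)) f) := by
    intro J' y
    constructor
    · intro h
      refine ⟨fun χ₀ hχ₀ => ?_, fun χ₀ hχ₀ => ?_⟩
      · exact (hr1 χ₀ y).1 (h _ (Or.inl ⟨χ₀, hχ₀, rfl⟩))
      · exact (hr2 χ₀ y).1 (h _ (Or.inr ⟨χ₀, hχ₀, rfl⟩))
    · rintro ⟨h1, h2⟩ χ (⟨χ₀, hχ₀, rfl⟩ | ⟨χ₀, hχ₀, rfl⟩)
      · exact (hr1 χ₀ y).2 (h1 χ₀ hχ₀)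
      · exact (hr2 χ₀ y).2 (h2 χ₀ hχ₀)
  have hfail : ∃ z : V → M, ∀ π : ι → Bool, ∃ J', ∀ y : Fin (k + 1) × Fin m → N,
      Sat f (Λ' J') y → ¬ ∀ i, ((ψ i).Realize (Sum.elim y (fun q => f (z q))) ↔ π i = true) := by
    by_contra hcon
    push Not at hcon
    refine hψ ⟨Λ', ?_, fun z => ?_⟩
    · intro J' y hy j
      rw [hsat] at hy
      refine Fin.cases ?_ (fun j => ?_) j
      · rw [← hb, ← hD _ _ hy.2]
      · exact hΛ _ _ hy.1 j
    · obtain ⟨π, hπ⟩ := hcon z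
      exact ⟨π, fun J' => hπ J'⟩
  obtain ⟨z, hz⟩ := hfail
  choose J' hJ' using hz
  -- compactness
  have hκ : ∀ π, ∃ κ : L.Formula (Fin m ⊕ M), κ.Realize (Sum.elim (b (J' π 0)) f) ∧
      Excl f ψ Λ z κ π := by
    intro π
    by_contra hcon
    push Not at hcon
    let C : (Fin (k + 1) × Fin m → N) → Prop := fun y =>
      Sat f (Λ (fun j => J' π j.succ)) (fun p => y (p.1.succ, p.2)) ∧
        ∀ i, ((ψ i).Realize (Sum.elim y (fun q => f (z q))) ↔ π i = true)
    let I := {κ : L.Formula (Fin m ⊕ M) // κ.Realize (Sum.elim (b (J' π 0)) f)}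
    have hI : Nonempty I := ⟨⟨⊤, Formula.realize_top.2 trivial⟩⟩
    obtain ⟨y, hy⟩ := exists_realize hN (I := I)
      (fun κ => {y | C y ∧ κ.1.Realize (Sum.elim (fun i => y (0, i)) f)})
      (by
        rintro ⟨κ₁, h₁⟩ ⟨κ₂, h₂⟩
        refine ⟨⟨κ₁ ⊓ κ₂, Formula.realize_inf.2 ⟨h₁, h₂⟩⟩, ?_⟩
        rintro y ⟨hc, hy⟩
        rw [Formula.realize_inf] at hy
        exact ⟨⟨hc, hy.1⟩, ⟨hc, hy.2⟩⟩)
      (by
        rintro ⟨κ, h₁⟩
        have h2 := hcon κ h₁
        unfold Excl at h2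
        push Not at h2
        obtain ⟨y, v, hy, hv, hp⟩ := h2 (fun j => J' π j.succ)
        exact ⟨ext y v, ⟨hy, hp⟩, hv⟩)
    refine hJ' π y ?_ ?_
    · rw [hsat]
      constructor
      · intro χ₀ hχ₀
        rw [← hr1]
        refine hy _ hI.some ?_
        rintro x ⟨⟨hx, _⟩, _⟩
        rw [hr1]
        exact hx χ₀ hχ₀
      · intro χ₀ hχ₀
        rw [← hr2]
        refine hy _ ⟨χ₀, hχ₀⟩ ?_
        rintro x ⟨_, hx⟩
        rw [hr2]
        exact hx
    · intro i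
      have e : ∀ x : Fin (k + 1) × Fin m → N,
          (lit (π i) ((ψ i).relabel (Sum.map id z))).Realize (Sum.elim x f) ↔
            ((ψ i).Realize (Sum.elim x (fun q => f (z q))) ↔ π i = true) := by
        intro x
        rw [realize_lit, Formula.realize_relabel]
        have : Sum.elim x f ∘ (Sum.map id z : (Fin (k + 1) × Fin m) ⊕ V → _) =
            Sum.elim x (fun q => f (z q)) := by
          funext q; rcases q with p | x <;> rfl
        rw [this]
      rw [← e]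
      refine hy _ hI.some ?_
      rintro x ⟨⟨_, hx⟩, _⟩
      rw [e]
      exact hx i
  choose κ hκ1 hκ2 using hκ
  refine ⟨{π | J' π 0 = false}, z, fun c => Formula.iInf
    (fun π : {π : ι → Bool // J' π 0 = c} => κ π.1), fun c => ?_, ?_, ?_⟩
  · rw [Formula.realize_iInf]
    rintro ⟨π, rfl⟩
    exact hκ1 π
  · intro π hπ
    have hπ' : J' π 0 = true := by simpa using hπ
    refine (hκ2 π).mono (fun v hv => ?_)
    rw [Formula.realize_iInf] at hv
    exact hv ⟨π, hπ'⟩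
  · intro π hπ
    refine (hκ2 π).mono (fun v hv => ?_)
    rw [Formula.realize_iInf] at hv
    exact hv ⟨π, hπ⟩

/-- the two components of `b` satisfy the same instances over `M` of the formulas in `Θ` -/
def Agree (f : M ↪ₑ[L] N) {W : Type} (Θ : Finset (L.Formula (Fin m ⊕ W)))
    (b : Bool → Fin m → N) : Prop :=
  ∀ θ ∈ Θ, ∀ c : W → M, (θ.Realize (Sum.elim (b true) (fun i => f (c i))) ↔
    θ.Realize (Sum.elim (b false) (fun i => f (c i))))

theorem exists_agree_nat [Nonempty M] {W : Type} (Θ : Finset (L.Formula (Fin m ⊕ W))) :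
    ∃ Θ' : Finset (L.Formula (Fin m ⊕ ℕ)), ∀ b, Agree f Θ' b → Agree f Θ b := by
  classical
  obtain ⟨k, c₀, t, ht⟩ := exists_fin_params Θ
  refine ⟨Θ.image (fun θ => (t θ).relabel (Sum.map id (Fin.val : Fin k → ℕ))),
    fun b hb θ hθ c => ?_⟩
  rw [← ht θ hθ N (b true) (fun i => f (c i)), ← ht θ hθ N (b false) (fun i => f (c i))]
  have h1 := hb _ (Finset.mem_image_of_mem _ hθ)
    (fun i => if h : i < k then c (c₀ ⟨i, h⟩) else Classical.arbitrary M)
  rw [Formula.realize_relabel, Formula.realize_relabel] at h1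
  have e : ∀ y : Fin m → N, (Sum.elim y (fun i => f ((fun i =>
      if h : i < k then c (c₀ ⟨i, h⟩) else Classical.arbitrary M) i)) ∘
      (Sum.map id (Fin.val : Fin k → ℕ) : Fin m ⊕ Fin k → _)) =
      Sum.elim y (fun i => f (c (c₀ i))) := by
    intro y
    ext x
    rcases x with i | i
    · rfl
    · simp
  rw [e, e] at h1
  exact h1

/-- the property `S` has data realised by pairs agreeing on any given finite set of formulas -/
def Rich (f : M ↪ₑ[L] N) (ψ : ι → L.Formula ((Fin (k + 1) × Fin m) ⊕ V))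
    (Λ : (Fin k → Bool) → Set (L.Formula ((Fin k × Fin m) ⊕ M)))
    (S : Set (ι → Bool)) : Prop :=
  ∀ (W : Type) (Θ : Finset (L.Formula (Fin m ⊕ W))), ∃ (b : Bool → Fin m → N) (z : V → M)
    (κ : Bool → L.Formula (Fin m ⊕ M)), Agree f Θ b ∧
      (∀ c, (κ c).Realize (Sum.elim (b c) f)) ∧ IsDatum f ψ Λ S z κ

/-- pigeonhole -/
theorem exists_rich [Nonempty M] (hN : RealizesTypes f) {D : (Fin m → N) → Prop}
    (hD : ∀ b b' : Fin m → N, (∀ ψ : L.Formula (Fin m ⊕ M), ψ.Realize (Sum.elim b f) →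
      ψ.Realize (Sum.elim b' f)) → (D b ↔ D b')) [Finite ι]
    {ψ : ι → L.Formula ((Fin (k + 1) × Fin m) ⊕ V)} (hψ : ¬ EEp f D (k + 1) ψ)
    {Λ : (Fin k → Bool) → Set (L.Formula ((Fin k × Fin m) ⊕ M))}
    (hΛ : ∀ J y, Sat f (Λ J) y → ∀ j, (D (fun i => y (j, i)) ↔ J j = true))
    (hfail : ¬ FLD f D) : ∃ S : Set (ι → Bool), Rich f ψ Λ S := by
  classical
  have h1 : ∀ Θ : Finset (L.Formula (Fin m ⊕ ℕ)), ∃ S : Set (ι → Bool),
      ∃ (b : Bool → Fin m → N) (z : V → M) (κ : Bool → L.Formula (Fin m ⊕ M)), Agree f Θ b ∧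
      (∀ c, (κ c).Realize (Sum.elim (b c) f)) ∧ IsDatum f ψ Λ S z κ := by
    intro Θ
    have h2 : ∃ b : Bool → Fin m → N, Agree f Θ b ∧ ∀ c, D (b c) ↔ c = true := by
      by_contra hcon
      refine hfail ⟨Θ, fun b b' hb => ?_⟩
      by_contra hne
      apply hcon
      by_cases hDb : D b
      · have hDb' : ¬ D b' := fun h => hne ⟨fun _ => h, fun _ => hDb⟩
        refine ⟨fun c => bif c then b else b', hb, fun c => ?_⟩
        cases c <;> simp [hDb, hDb']
      · have hDb' : D b' := by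
          by_contra h
          exact hne ⟨fun h' => absurd h' hDb, fun h' => absurd h' h⟩
        refine ⟨fun c => bif c then b' else b, fun θ hθ c => (hb θ hθ c).symm, fun c => ?_⟩
        cases c <;> simp [hDb, hDb']
    obtain ⟨b, hb, hb2⟩ := h2
    obtain ⟨S, z, κ, hκ, hdat⟩ := exists_datum hN hD hψ hΛ b hb2
    exact ⟨S, b, z, κ, hb, hκ, hdat⟩
  have h3 : ∃ S : Set (ι → Bool), ∀ Θ : Finset (L.Formula (Fin m ⊕ ℕ)),
      ∃ (b : Bool → Fin m → N) (z : V → M) (κ : Bool → L.Formula (Fin m ⊕ M)), Agree f Θ b ∧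
      (∀ c, (κ c).Realize (Sum.elim (b c) f)) ∧ IsDatum f ψ Λ S z κ := by
    by_contra hcon
    push Not at hcon
    choose Θ hΘ using hcon
    have : Fintype (Set (ι → Bool)) := Fintype.ofFinite _
    obtain ⟨S, b, z, κ, hb, hκ, hdat⟩ := h1 (Finset.univ.biUnion Θ)
    refine hΘ S b z κ (fun θ hθ c => hb θ ?_ c) hκ hdat
    exact Finset.mem_biUnion.2 ⟨S, Finset.mem_univ _, hθ⟩
  obtain ⟨S, hS⟩ := h3
  refine ⟨S, fun W Θ => ?_⟩
  obtain ⟨Θ', hΘ'⟩ := exists_agree_nat (f := f) Θ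
  obtain ⟨b, z, κ, hb, hκ, hdat⟩ := hS Θ'
  exact ⟨b, z, κ, hΘ' b hb, hκ, hdat⟩

omit [L.Structure M] in
/-- the formula `⋀_J ∃ ȳ [⋀ⱼ κⱼ^{Jⱼ}(yⱼ) ∧ ⋀ᵢ ψ₂ᵢ(ȳ, y; w)^{πᵢ}]` -/
theorem exists_pattern_formula {r : ℕ} {V₂ ι₂ : Type} [Finite ι₂]
    (ψ₂ : ι₂ → L.Formula ((Fin (r + 1) × Fin m) ⊕ V₂))
    (κ : Fin r → Bool → L.Formula (Fin m ⊕ M)) (π : ι₂ → Bool) :
    ∃ G : L.Formula (Fin m ⊕ (V₂ ⊕ M)), ∀ (Q : Type) [L.Structure Q] (v : Fin m → Q)
      (w : V₂ → Q) (c : M → Q), G.Realize (Sum.elim v (Sum.elim w c)) ↔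
        ∀ J : Fin r → Bool, ∃ y : Fin r × Fin m → Q,
          (∀ j, (κ j (J j)).Realize (Sum.elim (fun i => y (j, i)) c)) ∧
          ∀ i, ((ψ₂ i).Realize (Sum.elim (ext y v) w) ↔ π i = true) := by
  classical
  let e₁ : Fin r → Fin m ⊕ M → (Fin m ⊕ (V₂ ⊕ M)) ⊕ (Fin r × Fin m) := fun j =>
    Sum.elim (fun i => Sum.inr (j, i)) (fun x => Sum.inl (Sum.inr (Sum.inr x)))
  let e₂ : (Fin (r + 1) × Fin m) ⊕ V₂ → (Fin m ⊕ (V₂ ⊕ M)) ⊕ (Fin r × Fin m) :=
    Sum.elim (fun p => Fin.cases (Sum.inl (Sum.inl p.2)) (fun j => Sum.inr (j, p.2)) p.1)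
      (fun w => Sum.inl (Sum.inr (Sum.inl w)))
  refine ⟨Formula.iInf (fun J : Fin r → Bool => Formula.iExs (Fin r × Fin m)
    (Formula.iInf (fun j : Fin r => (κ j (J j)).relabel (e₁ j)) ⊓
      Formula.iInf (fun i : ι₂ => lit (π i) ((ψ₂ i).relabel e₂)))), ?_⟩
  intro Q _ v w c
  rw [Formula.realize_iInf]
  refine forall_congr' (fun J => ?_)
  rw [Formula.realize_iExs]
  refine exists_congr (fun y => ?_)
  rw [Formula.realize_inf, Formula.realize_iInf, Formula.realize_iInf]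
  refine and_congr (forall_congr' (fun j => ?_)) (forall_congr' (fun i => ?_))
  · rw [Formula.realize_relabel]
    have : Sum.elim (Sum.elim v (Sum.elim w c)) y ∘ e₁ j =
        Sum.elim (fun i => y (j, i)) c := by
      funext q; rcases q with i | x <;> rfl
    rw [this]
  · rw [realize_lit, Formula.realize_relabel]
    have : Sum.elim (Sum.elim v (Sum.elim w c)) y ∘ e₂ = Sum.elim (ext y v) w := by
      funext q
      rcases q with ⟨j, i⟩ | x
      · refine Fin.cases ?_ (fun j => ?_) j <;> rfl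
      · rfl
    rw [this]

/-- the pull-down claim -/
theorem exists_data {S : Set (ι → Bool)} {ψ : ι → L.Formula ((Fin (k + 1) × Fin m) ⊕ V)}
    {Λ : (Fin k → Bool) → Set (L.Formula ((Fin k × Fin m) ⊕ M))} (hS : Rich f ψ Λ S) :
    ∀ (r : ℕ) (V₂ ι₂ : Type) [Finite ι₂] (ψ₂ : ι₂ → L.Formula ((Fin r × Fin m) ⊕ V₂)),
      ∃ (z : Fin r → V → M) (κ : Fin r → Bool → L.Formula (Fin m ⊕ M)),
        (∀ j, IsDatum f ψ Λ S (z j) (κ j)) ∧
        ∀ w : V₂ → M, ∃ π : ι₂ → Bool, ∀ J : Fin r → Bool, ∃ y : Fin r × Fin m → M,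
          (∀ j, (κ j (J j)).Realize (Sum.elim (fun i => y (j, i)) id)) ∧
          ∀ i, ((ψ₂ i).Realize (Sum.elim y w) ↔ π i = true) := by
  classical
  intro r
  induction r with
  | zero =>
    intro V₂ ι₂ _ ψ₂
    refine ⟨fun j => j.elim0, fun j => j.elim0, fun j => j.elim0, fun w => ?_⟩
    let y₀ : Fin 0 × Fin m → M := fun p => p.1.elim0
    refine ⟨fun i => decide ((ψ₂ i).Realize (Sum.elim y₀ w)), fun J => ⟨y₀, ?_, ?_⟩⟩
    · exact fun j => j.elim0
    · intro i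
      simp
  | succ r ih =>
    intro V₂ ι₂ _ ψ₂
    obtain ⟨z, κ, hdat, hpat⟩ := ih (Fin m ⊕ V₂) ι₂ (fun i => (ψ₂ i).relabel (splitVar id))
    have hpat' : ∀ (v : Fin m → M) (w : V₂ → M), ∃ π : ι₂ → Bool, ∀ J : Fin r → Bool,
        ∃ y : Fin r × Fin m → M,
          (∀ j, (κ j (J j)).Realize (Sum.elim (fun i => y (j, i)) id)) ∧
          ∀ i, ((ψ₂ i).Realize (Sum.elim (ext y v) w) ↔ π i = true) := by
      intro v w
      obtain ⟨π, hπ⟩ := hpat (Sum.elim v w)
      refine ⟨π, fun J => ?_⟩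
      obtain ⟨y, hy1, hy2⟩ := hπ J
      refine ⟨y, hy1, fun i => ?_⟩
      rw [← hy2 i, realize_split]
      rfl
    choose G hG using fun π : ι₂ → Bool => exists_pattern_formula ψ₂ κ π
    have : Fintype ι₂ := Fintype.ofFinite _
    obtain ⟨b, z', κ', hb, hκ', hdat'⟩ := hS (V₂ ⊕ M) (Finset.univ.image G)
    refine ⟨Fin.cases z' z, Fin.cases κ' κ, fun j => ?_, fun w => ?_⟩
    · refine Fin.cases ?_ (fun j => ?_) j
      · exact hdat'
      · exact hdat j
    -- some `G π (b; w)` holds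
    have h1 : ∃ π, (G π).Realize (Sum.elim (b true) (Sum.elim (fun i => f (w i)) f)) := by
      let H : L.Formula (Fin m ⊕ M) := Formula.iSup (fun π : ι₂ → Bool =>
        (G π).relabel (Sum.map id (Sum.elim w id)))
      have hH : H.Realize (Sum.elim (b true) f) := by
        refine forall_of_elem f H (fun y => ?_) (b true)
        simp only [H]
        rw [Formula.realize_iSup]
        obtain ⟨π, hπ⟩ := hpat' y w
        refine ⟨π, ?_⟩
        rw [Formula.realize_relabel]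
        have : Sum.elim y id ∘ (Sum.map id (Sum.elim w id) : Fin m ⊕ (V₂ ⊕ M) → _) =
            Sum.elim y (Sum.elim w id) := by
          funext q; rcases q with i | (i | x) <;> rfl
        rw [this, hG]
        exact hπ
      simp only [H] at hH
      rw [Formula.realize_iSup] at hH
      obtain ⟨π, hπ⟩ := hH
      refine ⟨π, ?_⟩
      rw [Formula.realize_relabel] at hπ
      have : Sum.elim (b true) f ∘ (Sum.map id (Sum.elim w id) : Fin m ⊕ (V₂ ⊕ M) → _) =
          Sum.elim (b true) (Sum.elim (fun i => f (w i)) f) := by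
        funext q; rcases q with i | (i | x) <;> rfl
      rwa [this] at hπ
    obtain ⟨π, hπ⟩ := h1
    have h2 : ∀ c, (G π).Realize (Sum.elim (b c) (Sum.elim (fun i => f (w i)) f)) := by
      have h3 := hb (G π) (Finset.mem_image_of_mem _ (Finset.mem_univ π)) (Sum.elim w id)
      have e : (fun i => f ((Sum.elim w id : V₂ ⊕ M → M) i)) =
          Sum.elim (fun i => f (w i)) f := by
        funext q; rcases q with i | x <;> rfl
      rw [e] at h3
      intro c
      cases c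
      · exact h3.1 hπ
      · exact hπ
    refine ⟨π, fun J => ?_⟩
    -- pull `b (J 0)` down to `M`
    obtain ⟨v, hv⟩ := exists_of_elem f
      ((κ' (J 0)) ⊓ (G π).relabel (Sum.map id (Sum.elim w id))) ⟨b (J 0), by
        rw [Formula.realize_inf, Formula.realize_relabel]
        have : Sum.elim (b (J 0)) f ∘ (Sum.map id (Sum.elim w id) : Fin m ⊕ (V₂ ⊕ M) → _) =
            Sum.elim (b (J 0)) (Sum.elim (fun i => f (w i)) f) := by
          funext q; rcases q with i | (i | x) <;> rfl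
        rw [this]
        exact ⟨hκ' _, h2 _⟩⟩
    rw [Formula.realize_inf, Formula.realize_relabel] at hv
    have e : Sum.elim v id ∘ (Sum.map id (Sum.elim w id) : Fin m ⊕ (V₂ ⊕ M) → _) =
        Sum.elim v (Sum.elim w id) := by
      funext q; rcases q with i | (i | x) <;> rfl
    rw [e, hG] at hv
    obtain ⟨y, hy1, hy2⟩ := hv.2 (fun j => J j.succ)
    refine ⟨ext y v, fun j => ?_, hy2⟩
    refine Fin.cases ?_ (fun j => ?_) j
    · exact hv.1
    · exact hy1 j

/-- the formula saying that the `ψ`-pattern of `(x, y; z)` belongs to `S` -/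
theorem exists_alpha [Finite ι] (ψ : ι → L.Formula ((Fin (k + 1) × Fin m) ⊕ V))
    (S : Set (ι → Bool)) :
    ∃ α : L.Formula ((Fin k × Fin m) ⊕ (Fin m ⊕ V)), ∀ (Q : Type) [L.Structure Q]
      (x : Fin k × Fin m → Q) (y : Fin m → Q) (z : V → Q),
      α.Realize (Sum.elim x (Sum.elim y z)) ↔
        ∃ π ∈ S, ∀ i, ((ψ i).Realize (Sum.elim (ext x y) z) ↔ π i = true) := by
  refine ⟨Formula.iSup (fun π : {π : ι → Bool // π ∈ S} => Formula.iInf (fun i : ι =>
    lit (π.1 i) ((ψ i).relabel (splitVar id)))), fun Q _ x y z => ?_⟩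
  rw [Formula.realize_iSup]
  constructor
  · rintro ⟨⟨π, hπ⟩, h⟩
    rw [Formula.realize_iInf] at h
    refine ⟨π, hπ, fun i => ?_⟩
    have := h i
    rw [realize_lit, realize_split] at this
    exact this
  · rintro ⟨π, hπ, h⟩
    refine ⟨⟨π, hπ⟩, ?_⟩
    rw [Formula.realize_iInf]
    intro i
    rw [realize_lit, realize_split]
    exact h i

/-- **Finite local determination.** -/
theorem fld_of_nip [Nonempty M] (hnip : NIPHyp L M) (hN : RealizesTypes f)
    {D : (Fin m → N) → Prop}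
    (hD : ∀ b b' : Fin m → N, (∀ ψ : L.Formula (Fin m ⊕ M), ψ.Realize (Sum.elim b f) →
      ψ.Realize (Sum.elim b' f)) → (D b ↔ D b'))
    {β : Type} [Finite β] (χ : L.Formula (β ⊕ Fin m))
    (happ : ∀ (K : ℕ) (y : Fin K × Fin m → N), ∃ x : β → N, ∀ j : Fin K,
      (χ.Realize (Sum.elim x (fun i => y (j, i))) ↔ D (fun i => y (j, i)))) :
    FLD f D := by
  classical
  by_contra hfail
  -- `E_k` holds and `E_{k+1}` fails
  obtain ⟨k, hk, hk'⟩ : ∃ k, EE f D k ∧ ¬ EE f D (k + 1) := by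
    by_contra hcon
    push Not at hcon
    obtain ⟨k, hk⟩ := not_EE (f := f) (D := D) hnip χ happ
    apply hk
    clear hk
    induction k with
    | zero => exact EE_zero
    | succ k ih => exact hcon k ih
  unfold EE at hk'
  push Not at hk'
  obtain ⟨V, ι, hV, hι, ψ, hψ⟩ := hk'
  -- the NIP bounds
  choose α hα using fun S : Set (ι → Bool) => exists_alpha ψ S
  choose K hK using fun S : Set (ι → Bool) => hnip.bound (α S)
  obtain ⟨R, hR⟩ : ∃ R, ∀ S, K S ≤ R := by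
    obtain ⟨R, hR⟩ := (Set.finite_range K).bddAbove
    exact ⟨R, fun S => hR ⟨S, rfl⟩⟩
  -- the types `Λ`
  obtain ⟨Λ, hΛ, hpat⟩ := hk (Fin R × (Fin m ⊕ V)) (Fin R × ι)
    (fun q => (ψ q.2).relabel (splitVar (fun s => (q.1, s))))
  obtain ⟨S, hS⟩ := exists_rich hN hD hψ hΛ hfail
  obtain ⟨z, κ, hdat, hdown⟩ := exists_data hS R (Fin R × V) (Fin R → Bool)
    (fun J => shat (α S) J)
  obtain ⟨π₂, hπ₂⟩ := hdown (fun q => z q.1 q.2)
  -- every `π₂ J` is true
  have htrue : ∀ J, π₂ J = true := by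
    intro J
    obtain ⟨y, hy, hy2⟩ := hπ₂ J
    rw [← hy2 J]
    obtain ⟨π, hπ⟩ := hpat (fun q => Sum.elim (fun i => y (q.1, i)) (z q.1) q.2)
    have hπ' : ∀ J', ∃ x : Fin k × Fin m → N, Sat f (Λ J') x ∧ ∀ (j : Fin R) (i : ι),
        ((ψ i).Realize (Sum.elim (ext x (fun t => f (y (j, t)))) (fun v => f (z j v))) ↔
          π (j, i) = true) := by
      intro J'
      obtain ⟨x, hx, hx2⟩ := hπ J'
      refine ⟨x, hx, fun j i => ?_⟩
      rw [← hx2 (j, i)]
      exact (realize_split (fun s => (j, s)) (ψ i) x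
        (fun v => f (Sum.elim (fun i => y (v.1, i)) (z v.1) v.2))).symm
    have hmem : ∀ j, (fun i => π (j, i)) ∈ S ↔ J j = true := by
      intro j
      have hκj : (κ j (J j)).Realize (Sum.elim (fun i => f (y (j, i))) f) :=
        (realize_map f (κ j (J j)) (fun i => y (j, i))).2 (hy j)
      have hex : ¬ Excl f ψ Λ (z j) (κ j (J j)) (fun i => π (j, i)) := by
        rintro ⟨J', hJ'⟩
        obtain ⟨x, hx, hx2⟩ := hπ' J'
        exact hJ' x _ hx hκj (fun i => hx2 j i)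
      cases hJ : J j
      · rw [hJ] at hex
        simp only [Bool.false_eq_true, iff_false]
        exact fun h => hex ((hdat j).2 _ h)
      · rw [hJ] at hex
        simp only [iff_true]
        by_contra h
        exact hex ((hdat j).1 _ h)
    -- transfer to `M`
    obtain ⟨x, hx, hx2⟩ := hπ' (fun _ => true)
    have hN' : (shat (α S) J).Realize (Sum.elim (fun q => f (y q)) (fun q => f (z q.1 q.2))) := by
      rw [realize_shat]
      refine ⟨x, fun j => ?_⟩
      rw [hα S, ← hmem j]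
      constructor
      · rintro ⟨π', hπ', h⟩
        have : π' = fun i => π (j, i) := by
          funext i
          have h1 := h i
          have h2 := hx2 j i
          rw [Bool.eq_iff_iff]
          exact h1.symm.trans h2
        rw [← this]
        exact hπ'
      · intro h
        exact ⟨_, h, fun i => hx2 j i⟩
    have e : (fun q => f (Sum.elim y (fun q : Fin R × V => z q.1 q.2) q)) =
        Sum.elim (fun q => f (y q)) (fun q : Fin R × V => f (z q.1 q.2)) := by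
      funext q; rcases q with p | p <;> rfl
    have h5 := f.map_formula (shat (α S) J) (Sum.elim y (fun q : Fin R × V => z q.1 q.2))
    rw [← h5]
    have e2 : (f : M → N) ∘ (Sum.elim y (fun q : Fin R × V => z q.1 q.2)) =
        Sum.elim (fun q => f (y q)) (fun q : Fin R × V => f (z q.1 q.2)) := e
    rw [e2]
    exact hN'
  -- `α S` shatters `R` points of `M`
  obtain ⟨y, _, hy2⟩ := hπ₂ (fun _ => true)
  refine hK S R (hR S) (fun j => Sum.elim (fun i => y (j, i)) (z j)) (fun J => ?_)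
  have := (hy2 J).2 (htrue J)
  rw [realize_shat] at this
  exact this

end

end Pool.Agent.FLD394364
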