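import Pool.Agent.Lib.MP_394364_lc.Main

/-!
Finite local determination: definitions, closure under Boolean combinations, the definability
lemma, and formulas that shatter no pair.
-/

set_option autoImplicit false
open FirstOrder FirstOrder.Language Filter

namespace Pool.Agent.FLD394364

variable {L : FirstOrder.Language.{0, 0}}
variable {M N P N' : Type} [L.Structure M] [L.Structure N] [L.Structure P] [L.Structure N']

/-- the property `Q` of tuples of `N` is determined by finitely many `L`-formulas with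
parameters ranging over `M` -/
def FLD {m : ℕ} (f : M ↪ₑ[L] N) (Q : (Fin m → N) → Prop) : Prop :=
  ∃ Θ : Finset (L.Formula (Fin m ⊕ ℕ)), ∀ b b' : Fin m → N,
    (∀ θ ∈ Θ, ∀ c : ℕ → M, (θ.Realize (Sum.elim b (fun i => f (c i))) ↔
      θ.Realize (Sum.elim b' (fun i => f (c i))))) → (Q b ↔ Q b')

theorem FLD.of_params [Nonempty M] {m : ℕ} {f : M ↪ₑ[L] N} {Q : (Fin m → N) → Prop} (W : Type)
    (Θ : Finset (L.Formula (Fin m ⊕ W)))
    (hΘ : ∀ b b' : Fin m → N,
    (∀ θ ∈ Θ, ∀ c : W → M, (θ.Realize (Sum.elim b (fun i => f (c i))) ↔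
      θ.Realize (Sum.elim b' (fun i => f (c i))))) → (Q b ↔ Q b')) : FLD f Q := by
  classical
  obtain ⟨k, c₀, t, ht⟩ := exists_fin_params Θ
  refine ⟨Θ.image (fun θ => (t θ).relabel (Sum.map id (Fin.val : Fin k → ℕ))),
    fun b b' hb => hΘ b b' (fun θ hθ c => ?_)⟩
  rw [← ht θ hθ N b (fun i => f (c i)), ← ht θ hθ N b' (fun i => f (c i))]
  have h1 := hb _ (Finset.mem_image_of_mem _ hθ)
    (fun i => if h : i < k then c (c₀ ⟨i, h⟩) else Classical.arbitrary M)
  rw [Formula.realize_relabel, Formula.realize_relabel] at h1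
  have e : ∀ y : Fin m → N, (Sum.elim y (fun i => f ((fun i =>
      if h : i < k then c (c₀ ⟨i, h⟩) else Classical.arbitrary M) i)) ∘
      (Sum.map id (Fin.val : Fin k → ℕ) : Fin m ⊕ Fin k → _)) =
      Sum.elim y (fun i => f (c (c₀ i))) := by
    intro y
    ext x
    rcases x with i | i
    · rfl
    · simp
  rw [e, e] at h1
  exact h1

/-- the form used in the frozen statement -/
theorem FLD.frozen {m : ℕ} {f : M ↪ₑ[L] N} {Q : (Fin m → N) → Prop} (hQ : FLD f Q) :
    ∃ (k : ℕ) (Δ' : Finset (L.Formula (Fin m ⊕ Fin k))), ∀ b b' : Fin m → N,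
      (∀ ψ ∈ Δ', ∀ c : Fin k → M, (ψ.Realize (Sum.elim b (fun i => f (c i))) ↔
        ψ.Realize (Sum.elim b' (fun i => f (c i))))) → (Q b ↔ Q b') := by
  classical
  obtain ⟨Θ, hΘ⟩ := hQ
  obtain ⟨k, c₀, t, ht⟩ := exists_fin_params Θ
  refine ⟨k, Θ.image t, fun b b' hb => hΘ b b' (fun θ hθ c => ?_)⟩
  rw [← ht θ hθ N b (fun i => f (c i)), ← ht θ hθ N b' (fun i => f (c i))]
  exact hb _ (Finset.mem_image_of_mem _ hθ) (fun i => c (c₀ i))

theorem FLD.boolean {m r : ℕ} {f : M ↪ₑ[L] N} {Q : (Fin m → N) → Prop}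
    (R : Fin r → (Fin m → N) → Prop) (hR : ∀ i, FLD f (R i)) (B : (Fin r → Prop) → Prop)
    (hB : ∀ b, Q b ↔ B (fun i => R i b)) : FLD f Q := by
  classical
  choose Θ hΘ using hR
  refine ⟨Finset.univ.biUnion Θ, fun b b' hb => ?_⟩
  have : (fun i => R i b) = (fun i => R i b') := by
    ext i
    exact hΘ i b b' (fun θ hθ c => hb θ (Finset.mem_biUnion.2 ⟨i, Finset.mem_univ _, hθ⟩) c)
  rw [hB, hB, this]

theorem FLD.of_definable [Nonempty M] {m : ℕ} {f : M ↪ₑ[L] N} {Q : (Fin m → N) → Prop}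
    (χ : L.Formula (Fin m ⊕ M)) (hχ : ∀ b, Q b ↔ χ.Realize (Sum.elim b f)) : FLD f Q := by
  refine FLD.of_params M {χ} (fun b b' hb => ?_)
  have := hb χ (Finset.mem_singleton_self _) id
  rw [hχ, hχ]
  exact this

section
variable {f : M ↪ₑ[L] N} {g : N ↪ₑ[L] N'} {n m : ℕ} {a : Fin n → N'}
  {φ : L.Formula (Fin n ⊕ (Fin m ⊕ M))}

/-- If the value of `φ` on ultrafilters is decided by membership of one set `E`, then the set of
`b` with `φ(a; b)` is definable over `M`. -/
theorem step_one [Nonempty M] (hN : RealizesTypes f)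
    (E : (Fin m → M) → Prop)
    (hE : ∀ (F : Ultrafilter (Fin m → M)) (c : Bool),
      Val f (ElementaryEmbedding.refl L M) g a φ c F → ((∀ᶠ y in F, E y) ↔ c = true)) :
    ∃ χ : L.Formula (Fin m ⊕ M), ∀ b : Fin m → N, Tr f g a φ b ↔ χ.Realize (Sum.elim b f) := by
  classical
  let h := ElementaryEmbedding.refl L M
  let Pos : L.Formula (Fin m ⊕ M) → Prop := fun ψ => ∀ y, ψ.Realize (Sum.elim y h) → E y
  let Neg : L.Formula (Fin m ⊕ M) → Prop := fun ψ => ∀ y, ψ.Realize (Sum.elim y h) → ¬ E y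
  have hcov : ∃ Ψ : Finset (L.Formula (Fin m ⊕ M)), (∀ ψ ∈ Ψ, Pos ψ ∨ Neg ψ) ∧
      ∀ y : Fin m → M, ∃ ψ ∈ Ψ, ψ.Realize (Sum.elim y h) := by
    by_contra hcon
    push Not at hcon
    obtain ⟨F, hF⟩ := exists_ultra_of_fip (X := Fin m → M)
      (I := Finset {ψ : L.Formula (Fin m ⊕ M) // Pos ψ ∨ Neg ψ})
      (fun J => {y | ∀ ψ ∈ J, ¬ ψ.1.Realize (Sum.elim y h)})
      (by
        intro J₁ J₂
        refine ⟨J₁ ∪ J₂, ?_⟩
        intro y hy
        exact ⟨fun ψ hψ => hy ψ (Finset.mem_union_left _ hψ),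
          fun ψ hψ => hy ψ (Finset.mem_union_right _ hψ)⟩)
      (by
        intro J
        obtain ⟨y, hy⟩ := hcon (J.image Subtype.val) (by
          intro ψ hψ
          obtain ⟨ψ', _, rfl⟩ := Finset.mem_image.1 hψ
          exact ψ'.2)
        exact ⟨y, fun ψ hψ => hy ψ.1 (Finset.mem_image_of_mem _ hψ)⟩)
    obtain ⟨β, hβ⟩ := exists_rz f hN h F
    by_cases hT : Tr f g a φ β
    · have h1 : ∃ ψ : L.Formula (Fin m ⊕ M), ψ.Realize (Sum.elim β f) ∧ Pos ψ := by
        by_contra hc
        push Not at hc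
        obtain ⟨F', hF', hF2⟩ := exists_ultra_tp f h β (fun y => ¬ E y) (by
          intro ψ hψ
          have := hc ψ hψ
          simp only [Pos] at this
          push Not at this
          exact this)
        have h2 := (hE F' true (Val.of_rz hF' (by simp [hT]))).2 rfl
        obtain ⟨y, hy⟩ := (h2.and hF2).exists
        exact hy.2 hy.1
      obtain ⟨ψ, hψ, hpos⟩ := h1
      have h2 := (hβ ψ).1 hψ
      have h3 := hF {⟨ψ, Or.inl hpos⟩}
      obtain ⟨y, hy⟩ := (h2.and h3).exists
      exact hy.2 ⟨ψ, Or.inl hpos⟩ (Finset.mem_singleton_self _) hy.1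
    · have h1 : ∃ ψ : L.Formula (Fin m ⊕ M), ψ.Realize (Sum.elim β f) ∧ Neg ψ := by
        by_contra hc
        push Not at hc
        obtain ⟨F', hF', hF2⟩ := exists_ultra_tp f h β (fun y => E y) (by
          intro ψ hψ
          have := hc ψ hψ
          simp only [Neg] at this
          push Not at this
          exact this)
        have h2 := (hE F' false (Val.of_rz hF' (by simp [hT]))).1 hF2
        exact absurd h2 (by simp)
      obtain ⟨ψ, hψ, hneg⟩ := h1
      have h2 := (hβ ψ).1 hψ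
      have h3 := hF {⟨ψ, Or.inr hneg⟩}
      obtain ⟨y, hy⟩ := (h2.and h3).exists
      exact hy.2 ⟨ψ, Or.inr hneg⟩ (Finset.mem_singleton_self _) hy.1
  obtain ⟨Ψ, hΨ, hc⟩ := hcov
  let χ : L.Formula (Fin m ⊕ M) :=
    Formula.iSup (fun ψ : {ψ // ψ ∈ Ψ.filter Pos} => ψ.1)
  have hχE : ∀ y : Fin m → M, χ.Realize (Sum.elim y h) ↔ E y := by
    intro y
    simp only [χ]
    rw [Formula.realize_iSup]
    constructor
    · rintro ⟨⟨ψ, hψ⟩, hy⟩
      exact (Finset.mem_filter.1 hψ).2 y hy
    · intro hy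
      obtain ⟨ψ, hψ, hr⟩ := hc y
      refine ⟨⟨ψ, Finset.mem_filter.2 ⟨hψ, ?_⟩⟩, hr⟩
      rcases hΨ ψ hψ with h' | h'
      · exact h'
      · exact absurd hy (h' y hr)
  refine ⟨χ, fun b => ?_⟩
  obtain ⟨F, hF⟩ := exists_ultra_tp' f h b
  rw [hF χ]
  simp only [hχE]
  by_cases hT : Tr f g a φ b
  · have := hE F true (Val.of_rz hF (by simp [hT]))
    simp only [hT, true_iff]
    exact this.2 rfl
  · have := hE F false (Val.of_rz hF (by simp [hT]))
    simp only [hT, false_iff]
    intro hcon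
    exact absurd (this.1 hcon) (by simp)

/-- **VC dimension one.** If `φ` shatters no pair of tuples from `M` inside `θ ∈ tp(a/M)`, then
`φ(a; b)` is determined by finitely many `L`-formulas with parameters ranging over `M`. -/
theorem fld_of_noShatter_two [Nonempty M] (hN : RealizesTypes f) (hinv : Inv f g a φ)
    {θ : L.Formula (Fin n ⊕ M)} (hθ : θ.Realize (Sum.elim a (fun x => g (f x))))
    (hK : NoShatter φ θ 2 (id : M → M)) : FLD f (Tr f g a φ) := by
  classical
  obtain ⟨j, V, hV⟩ := main_lemma hN hinv hθ hK (ElementaryEmbedding.refl L M)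
  have hj : j = 0 ∨ j = 1 := by
    rcases j with ⟨j, hj⟩
    interval_cases j
    · exact Or.inl rfl
    · exact Or.inr rfl
  rcases hj with rfl | rfl
  · -- finitely many sets `E_ε`
    let Es : (Fin 2 → Bool) → (Fin m → M) → Prop := fun ε y =>
      ∀ᶠ v in V, (rho φ θ 2 ε).Realize (Sum.elim
        (fun q => mix 0 (fun _ => y) y v q.1 q.2) (ElementaryEmbedding.refl L M))
    have hmix : ∀ (z : Fin 2 → Fin m → M) (y : Fin m → M) (v : Fin 2 → Fin m → M),
        mix 0 z y v = mix 0 (fun _ => y) y v := by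
      intro z y v
      ext k i
      unfold mix
      simp
    have hEs : ∀ F₁ F₀ : Ultrafilter (Fin m → M),
        Val f (ElementaryEmbedding.refl L M) g a φ true F₁ →
        Val f (ElementaryEmbedding.refl L M) g a φ false F₀ →
        ∃ ε, ¬ ((∀ᶠ y in F₁, Es ε y) ↔ (∀ᶠ y in F₀, Es ε y)) := by
      intro F₁ F₀ h₁ h₀
      obtain ⟨ε, z, hz⟩ := hV F₁ F₀ h₁ h₀
      refine ⟨ε, ?_⟩
      simp only [hmix z] at hz
      exact hz
    let E : (Fin m → M) → Prop := fun y => ∃ F : Ultrafilter (Fin m → M),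
      Val f (ElementaryEmbedding.refl L M) g a φ true F ∧ ∀ ε, (Es ε y ↔ ∀ᶠ y in F, Es ε y)
    have hA : ∀ F : Ultrafilter (Fin m → M), ∀ᶠ y in F, ∀ ε, (Es ε y ↔ ∀ᶠ y in F, Es ε y) := by
      intro F
      rw [Filter.eventually_all]
      intro ε
      by_cases hε : ∀ᶠ y in F, Es ε y
      · exact hε.mono (fun y hy => by simp [hy, hε])
      · have h2 : ∀ᶠ y in F, ¬ Es ε y := Ultrafilter.eventually_not.2 hε
        exact h2.mono (fun y hy => by simp [hy, hε])
    obtain ⟨χ, hχ⟩ := step_one hN E (by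
      intro F c hc
      constructor
      · intro hF
        obtain ⟨y, hy1, hy2⟩ := (hF.and (hA F)).exists
        obtain ⟨F', hF', h'⟩ := hy1
        by_contra hne
        have hc' : c = false := by cases c <;> simp_all
        subst hc'
        obtain ⟨ε, hε⟩ := hEs F' F hF' hc
        exact hε ((h' ε).symm.trans (hy2 ε))
      · rintro rfl
        exact (hA F).mono (fun y hy => ⟨F, hc, hy⟩))
    exact FLD.of_definable χ hχ
  · -- internal separation
    let W := (Fin m) ⊕ M
    let e : (Fin 2 × Fin m) ⊕ M → Fin m ⊕ W :=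
      Sum.elim (fun q => if q.1 = 1 then Sum.inl q.2 else Sum.inr (Sum.inl q.2))
        (fun x => Sum.inr (Sum.inr x))
    refine FLD.of_params W (Finset.univ.image (fun ε : Fin 2 → Bool => (rho φ θ 2 ε).relabel e))
      (fun b b' hb => ?_)
    have main : ∀ b b' : Fin m → N,
        (∀ θ' ∈ (Finset.univ.image (fun ε : Fin 2 → Bool => (rho φ θ 2 ε).relabel e)),
          ∀ c : W → M, (θ'.Realize (Sum.elim b (fun i => f (c i))) ↔
          θ'.Realize (Sum.elim b' (fun i => f (c i))))) →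
        Tr f g a φ b → Tr f g a φ b' := by
      intro b b' hb hT
      by_contra hT'
      obtain ⟨F₁, hF₁⟩ := exists_ultra_tp' f (ElementaryEmbedding.refl L M) b
      obtain ⟨F₀, hF₀⟩ := exists_ultra_tp' f (ElementaryEmbedding.refl L M) b'
      obtain ⟨ε, z, hz⟩ := hV F₁ F₀ (Val.of_rz hF₁ (by simp [hT])) (Val.of_rz hF₀ (by simp [hT']))
      apply hz
      let e' : (Fin 2 × Fin m) ⊕ M → Fin m ⊕ M :=
        Sum.elim (fun q => if q.1 = 1 then Sum.inl q.2 else Sum.inr (z 0 q.2))
          (fun x => Sum.inr x)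
      have hcomm : ∀ (F : Ultrafilter (Fin m → M)) (β : Fin m → N),
          Rz f (ElementaryEmbedding.refl L M) F β →
          ((∀ᶠ y in F, ∀ᶠ v in V, (rho φ θ 2 ε).Realize
              (Sum.elim (fun q => mix 1 z y v q.1 q.2) (ElementaryEmbedding.refl L M))) ↔
            ((rho φ θ 2 ε).relabel e).Realize (Sum.elim β
              (fun i => f ((Sum.elim (z 0) id : W → M) i)))) := by
        intro F β hβ
        have h1 := hβ ((rho φ θ 2 ε).relabel e')
        rw [Formula.realize_relabel] at h1 ⊢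
        have e1 : (Sum.elim β f ∘ e' : (Fin 2 × Fin m) ⊕ M → N) =
            Sum.elim β (fun i => f ((Sum.elim (z 0) id : W → M) i)) ∘ e := by
          ext x
          rcases x with ⟨k, i⟩ | x
          · by_cases hk : k = 1 <;> simp [e', e, hk]
          · rfl
        rw [← e1, h1]
        refine eventually_congr (Eventually.of_forall (fun y => ?_))
        rw [Formula.realize_relabel]
        have e2 : ∀ v : Fin 2 → Fin m → M,
            (Sum.elim (fun q : Fin 2 × Fin m => mix 1 z y v q.1 q.2)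
              (ElementaryEmbedding.refl L M)) =
            (Sum.elim y (ElementaryEmbedding.refl L M) ∘ e') := by
          intro v
          ext x
          rcases x with ⟨k, i⟩ | x
          · fin_cases k <;> simp [mix, e']
          · rfl
        simp only [e2, Filter.eventually_const]
      rw [hcomm F₁ b hF₁, hcomm F₀ b' hF₀]
      exact hb _ (Finset.mem_image_of_mem _ (Finset.mem_univ ε)) _
    exact ⟨main b b' hb, main b' b (fun θ' hθ' c => (hb θ' hθ' c).symm)⟩

end

end Pool.Agent.FLD394364
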