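import Pool.Agent.Lib.MP_394364_lc.Basic

/-!
Shattering formulas and the main combinatorial lemma.
-/

set_option autoImplicit false
open FirstOrder FirstOrder.Language Filter

namespace Pool.Agent.FLD394364

variable {L : FirstOrder.Language.{0, 0}}

/-! ### shattering formulas -/

/-- the variables of `φ(x; y, parameters from M)` inside `(y₀, …, y_{K-1}), M, x` -/
def vars {n m K : ℕ} {M : Type} (k : Fin K) :
    Fin n ⊕ (Fin m ⊕ M) → ((Fin K × Fin m) ⊕ M) ⊕ Fin n :=
  Sum.elim Sum.inr (Sum.elim (fun j => Sum.inl (Sum.inl (k, j))) (fun x => Sum.inl (Sum.inr x)))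

/-- `∃ x, θ(x) ∧ ⋀ₖ φ(x; yₖ)^{εₖ}` as a formula in the variables `y = (y₀, …, y_{K-1})`, with
parameters from `M` -/
noncomputable def rho {n m : ℕ} {M : Type} (φ : L.Formula (Fin n ⊕ (Fin m ⊕ M)))
    (θ : L.Formula (Fin n ⊕ M)) (K : ℕ) (ε : Fin K → Bool) :
    L.Formula ((Fin K × Fin m) ⊕ M) :=
  Formula.iExs (Fin n) (θ.relabel (Sum.elim Sum.inr (fun x => Sum.inl (Sum.inr x))) ⊓
    Formula.iInf (fun k : Fin K =>
      bif ε k then φ.relabel (vars k) else ∼(φ.relabel (vars k))))

theorem realize_rho {n m : ℕ} {M : Type} (φ : L.Formula (Fin n ⊕ (Fin m ⊕ M)))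
    (θ : L.Formula (Fin n ⊕ M)) {K : ℕ} (ε : Fin K → Bool)
    {P : Type} [L.Structure P] (v : Fin K × Fin m → P) (p : M → P) :
    (rho φ θ K ε).Realize (Sum.elim v p) ↔
      ∃ x : Fin n → P, θ.Realize (Sum.elim x p) ∧
        ∀ k, (φ.Realize (Sum.elim x (Sum.elim (fun j => v (k, j)) p)) ↔ ε k = true) := by
  unfold rho
  rw [Formula.realize_iExs]
  refine exists_congr (fun x => ?_)
  rw [Formula.realize_inf, Formula.realize_relabel]
  have e0 : (Sum.elim (Sum.elim v p) x) ∘
      (Sum.elim Sum.inr (fun y => Sum.inl (Sum.inr y)) : Fin n ⊕ M → _) = Sum.elim x p := by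
    ext z; cases z <;> rfl
  rw [e0]
  refine and_congr Iff.rfl ?_
  rw [Formula.realize_iInf]
  refine forall_congr' (fun k => ?_)
  have e : (Sum.elim (Sum.elim v p) x) ∘ (vars k) =
      Sum.elim x (Sum.elim (fun j => v (k, j)) p) := by
    ext z
    rcases z with i | (j | y) <;> rfl
  cases hk : ε k
  · simp only [cond_false, Bool.false_eq_true, iff_false]
    rw [Formula.realize_not, Formula.realize_relabel, e]
  · simp only [cond_true, iff_true]
    rw [Formula.realize_relabel, e]

/-- no `K` tuples `y₀, …, y_{K-1}` in `P` are shattered by the instances `φ(x; ·)`, `x ∈ θ` -/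
def NoShatter {n m : ℕ} {M : Type} (φ : L.Formula (Fin n ⊕ (Fin m ⊕ M)))
    (θ : L.Formula (Fin n ⊕ M)) (K : ℕ) {P : Type} [L.Structure P] (p : M → P) : Prop :=
  ∀ b : Fin K → Fin m → P, ¬ ∀ ε : Fin K → Bool, ∃ x : Fin n → P,
    θ.Realize (Sum.elim x p) ∧
      ∀ k, (φ.Realize (Sum.elim x (Sum.elim (b k) p)) ↔ ε k = true)

theorem NoShatter.transfer {n m : ℕ} {M : Type} [L.Structure M]
    {φ : L.Formula (Fin n ⊕ (Fin m ⊕ M))} {θ : L.Formula (Fin n ⊕ M)} {K : ℕ} {P : Type}
    [L.Structure P] (hM : NoShatter φ θ K (id : M → M)) (h : M ↪ₑ[L] P) :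
    NoShatter φ θ K h := by
  intro b hb
  let ψ : L.Formula ((Fin K × Fin m) ⊕ M) :=
    Formula.iInf (fun ε : Fin K → Bool => rho φ θ K ε)
  obtain ⟨y, hy⟩ := exists_of_elem h ψ ⟨fun q => b q.1 q.2, by
    simp only [ψ]
    rw [Formula.realize_iInf]
    intro ε
    rw [realize_rho]
    exact hb ε⟩
  simp only [ψ] at hy
  rw [Formula.realize_iInf] at hy
  refine hM (fun k j => y (k, j)) (fun ε => ?_)
  have := hy ε
  rw [realize_rho] at this
  exact this

section main

variable {M N P N' : Type} [L.Structure M] [L.Structure N] [L.Structure P] [L.Structure N']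
variable (f : M ↪ₑ[L] N) (h : M ↪ₑ[L] P) (g : N ↪ₑ[L] N')
variable {n m : ℕ} (a : Fin n → N') (φ : L.Formula (Fin n ⊕ (Fin m ⊕ M)))

/-- truth of `φ(a; b)` for `b` in `N` -/
def Tr (b : Fin m → N) : Prop :=
  φ.Realize (Sum.elim a (Sum.elim (fun i => g (b i)) (fun x => g (f x))))

/-- the ultrafilter `F` on `m`-tuples of `P ≻ M` has value `c`: some (equivalently, by
invariance, every) realisation `β` in `N` of its type over `M` satisfies `φ(a; β)` iff `c`. -/
def Val (c : Bool) (F : Ultrafilter (Fin m → P)) : Prop :=
  ∃ β : Fin m → N, Rz f h F β ∧ (Tr f g a φ β ↔ c = true)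

/-- `φ`-invariance of the type of `a` over `N`. -/
def Inv : Prop := ∀ b b' : Fin m → N,
  (∀ ψ : L.Formula (Fin m ⊕ M), ψ.Realize (Sum.elim b f) ↔ ψ.Realize (Sum.elim b' f)) →
  (Tr f g a φ b ↔ Tr f g a φ b')

variable {f h g a φ}

theorem Val.realize (hinv : Inv f g a φ) {c : Bool} {F : Ultrafilter (Fin m → P)}
    (hF : Val f h g a φ c F) {β : Fin m → N} (hβ : Rz f h F β) :
    (Tr f g a φ β ↔ c = true) := by
  obtain ⟨β', hβ', hv⟩ := hF
  rw [← hv]
  exact hinv _ _ (fun ψ => (hβ ψ).trans (hβ' ψ).symm)

theorem Val.of_rz {F : Ultrafilter (Fin m → P)} {β : Fin m → N} (hβ : Rz f h F β) {c : Bool}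
    (hc : Tr f g a φ β ↔ c = true) : Val f h g a φ c F := ⟨β, hβ, hc⟩

theorem exists_val [Nonempty M] (hN : RealizesTypes f) (F : Ultrafilter (Fin m → P)) :
    ∃ c, Val f h g a φ c F := by
  obtain ⟨β, hβ⟩ := exists_rz f hN h F
  by_cases hc : Tr f g a φ β
  · exact ⟨true, β, hβ, by simp [hc]⟩
  · exact ⟨false, β, hβ, by simp [hc]⟩

theorem Val.unique (hinv : Inv f g a φ) {c c' : Bool} {F : Ultrafilter (Fin m → P)}
    (hF : Val f h g a φ c F) (hF' : Val f h g a φ c' F) : c = c' := by
  obtain ⟨β, hβ, hv⟩ := hF
  have := hF'.realize hinv hβ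
  rw [hv] at this
  cases c <;> cases c' <;> simp_all

/-- outer coordinates from `z`, `j`-th coordinate `y`, inner coordinates from `v` -/
def mix {Y : Type} {K : ℕ} (j : Fin K) (z : Fin K → Y) (y : Y) (v : Fin K → Y) : Fin K → Y :=
  fun k => if k < j then z k else if k = j then y else v k

/-- **Main lemma.** -/
theorem main_lemma [Nonempty M] (hN : RealizesTypes f) (hinv : Inv f g a φ)
    {θ : L.Formula (Fin n ⊕ M)} (hθ : θ.Realize (Sum.elim a (fun x => g (f x)))) {K : ℕ}
    (hK : NoShatter φ θ K (id : M → M)) (h : M ↪ₑ[L] P) :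
    ∃ (j : Fin K) (V : Ultrafilter (Fin K → Fin m → P)),
      ∀ F₁ F₀ : Ultrafilter (Fin m → P), Val f h g a φ true F₁ → Val f h g a φ false F₀ →
        ∃ (ε : Fin K → Bool) (z : Fin K → Fin m → P),
          ¬ ((∀ᶠ y in F₁, ∀ᶠ v in V, (rho φ θ K ε).Realize
                (Sum.elim (fun q => mix j z y v q.1 q.2) h)) ↔
             (∀ᶠ y in F₀, ∀ᶠ v in V, (rho φ θ K ε).Realize
                (Sum.elim (fun q => mix j z y v q.1 q.2) h))) := by
  classical
  by_contra hcon
  push Not at hcon
  have hP : Nonempty P := ⟨h (Classical.arbitrary M)⟩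
  -- the inductive construction
  have claim : ∀ r : ℕ, r ≤ K → ∃ W : (Fin K → Bool) → Ultrafilter (Fin K → Fin m → P),
      (∀ c, ∀ k : Fin K, K ≤ k.val + r → Val f h g a φ (c k) ((W c).map (fun v => v k))) ∧
      (∀ ε : Fin K → Bool, ∀ z : Fin K → Fin m → P, ∀ c c',
        ((∀ᶠ (v : Fin K → Fin m → P) in W c, (rho φ θ K ε).Realize
            (Sum.elim (fun q => (if q.1.val + r < K then z q.1 else v q.1) q.2) h)) ↔
         (∀ᶠ (v : Fin K → Fin m → P) in W c', (rho φ θ K ε).Realize
            (Sum.elim (fun q => (if q.1.val + r < K then z q.1 else v q.1) q.2) h)))) := by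
    intro r
    induction r with
    | zero =>
      intro _
      refine ⟨fun _ => pure (fun _ _ => Classical.arbitrary P), ?_, ?_⟩
      · intro c k hk
        exact absurd hk (by have := k.2; omega)
      · intro ε z c c'
        have : ∀ q : Fin K × Fin m, q.1.val + 0 < K := fun q => q.1.2
        simp only [this, if_true]
    | succ r ih =>
      intro hr
      obtain ⟨W, hW1, hW2⟩ := ih (by omega)
      let j : Fin K := ⟨K - r - 1, by omega⟩
      have hj : j.val = K - r - 1 := rfl
      let V := W (fun _ => true)
      obtain ⟨F₁, F₀, hF₁, hF₀, hag⟩ := hcon j V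
      let F : Bool → Ultrafilter (Fin m → P) := fun b => bif b then F₁ else F₀
      have hF : ∀ b, Val f h g a φ b (F b) := by
        intro b; cases b
        · exact hF₀
        · exact hF₁
      have hFag : ∀ b b' : Bool, ∀ (ε : Fin K → Bool) (z : Fin K → Fin m → P),
          (∀ᶠ y in F b, ∀ᶠ v in V, (rho φ θ K ε).Realize
            (Sum.elim (fun q => mix j z y v q.1 q.2) h)) →
          (∀ᶠ y in F b', ∀ᶠ v in V, (rho φ θ K ε).Realize
            (Sum.elim (fun q => mix j z y v q.1 q.2) h)) := by
        intro b b' ε z
        have := hag ε z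
        cases b <;> cases b'
        · exact id
        · exact this.2
        · exact this.1
        · exact id
      refine ⟨fun c => (F (c j)).bind (fun y => (W c).map (fun v => Function.update v j y)),
        ?_, ?_⟩
      · intro c k hk
        by_cases hkj : k = j
        · subst hkj
          have : ((F (c j)).bind (fun y => (W c).map
              (fun v => Function.update v j y))).map (fun v => v j) = F (c j) := by
            apply Ultrafilter.coe_injective
            ext S
            change (∀ᶠ y in F (c j), ∀ᶠ (v : Fin K → Fin m → P) in W c,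
              Function.update v j y j ∈ S) ↔ _
            simp only [Function.update_self, Filter.eventually_const]
            rfl
          rw [this]
          exact hF _
        · have hk' : K ≤ k.val + r := by
            have : k.val ≠ j.val := fun h => hkj (Fin.ext h)
            have := k.2
            omega
          have : ((F (c j)).bind (fun y => (W c).map
              (fun v => Function.update v j y))).map (fun v => v k) =
              (W c).map (fun v => v k) := by
            apply Ultrafilter.coe_injective
            ext S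
            change (∀ᶠ y in F (c j), ∀ᶠ (v : Fin K → Fin m → P) in W c,
              Function.update v j y k ∈ S) ↔ (∀ᶠ (v : Fin K → Fin m → P) in W c, v k ∈ S)
            simp only [Function.update_of_ne hkj, Filter.eventually_const]
          rw [this]
          exact hW1 c k hk'
      · -- independence
        have key : ∀ (ε : Fin K → Bool) (z : Fin K → Fin m → P) (c : Fin K → Bool),
            (∀ᶠ (v : Fin K → Fin m → P) in
                (F (c j)).bind (fun y => (W c).map (fun v => Function.update v j y)),
              (rho φ θ K ε).Realize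
              (Sum.elim (fun q => (if q.1.val + (r + 1) < K then z q.1 else v q.1) q.2) h)) ↔
            (∀ᶠ y in F (c j), ∀ᶠ v in V,
              (rho φ θ K ε).Realize (Sum.elim (fun q => mix j z y v q.1 q.2) h)) := by
          intro ε z c
          change (∀ᶠ y in F (c j), ∀ᶠ (v : Fin K → Fin m → P) in W c, (rho φ θ K ε).Realize
              (Sum.elim (fun q => (if q.1.val + (r + 1) < K then z q.1
                else Function.update v j y q.1) q.2) h)) ↔ _
          refine eventually_congr (Eventually.of_forall (fun y => ?_))
          have h1 : ∀ v : Fin K → Fin m → P,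
              (fun q : Fin K × Fin m => (if q.1.val + (r + 1) < K then z q.1
                else Function.update v j y q.1) q.2) =
              (fun q : Fin K × Fin m => (if q.1.val + r < K then
                (fun k : Fin K => if k < j then z k else y) q.1 else v q.1) q.2) := by
            intro v
            ext ⟨k, i⟩
            dsimp only
            by_cases h1 : k.val + (r + 1) < K
            · have h2 : k.val + r < K := by omega
              have h3 : k < j := by rw [Fin.lt_def, hj]; omega
              simp only [h1, h2, h3, if_true]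
            · by_cases h2 : k.val + r < K
              · have h3 : k = j := Fin.ext (by rw [hj]; omega)
                have h4 : ¬ k < j := by rw [h3]; exact lt_irrefl _
                simp only [h1, h2, if_true, if_false]
                rw [if_neg h4, h3, Function.update_self]
              · have h3 : k ≠ j := fun h => by
                  have := congrArg Fin.val h
                  rw [hj] at this
                  omega
                simp only [h1, h2, if_false]
                rw [Function.update_of_ne h3]
          have h2 : ∀ v : Fin K → Fin m → P,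
              (fun q : Fin K × Fin m => mix j z y v q.1 q.2) =
              (fun q : Fin K × Fin m => (if q.1.val + r < K then
                (fun k : Fin K => if k < j then z k else y) q.1 else v q.1) q.2) := by
            intro v
            ext ⟨k, i⟩
            unfold mix
            dsimp only
            by_cases h1 : k < j
            · have h3 : k.val < K - r - 1 := by rw [Fin.lt_def, hj] at h1; exact h1
              have h2 : k.val + r < K := by omega
              simp only [h1, h2, if_true]
            · by_cases h2 : k = j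
              · have h3 : k.val + r < K := by rw [h2, hj]; omega
                simp only [h1, h3, if_false, if_true]
                rw [if_pos h2]
              · have h3 : ¬ k.val + r < K := by
                  rw [Fin.lt_def, hj] at h1
                  have : k.val ≠ j.val := fun h => h2 (Fin.ext h)
                  rw [hj] at this
                  omega
                simp only [h1, h3, if_false]
                rw [if_neg h2]
          simp only [h1, h2]
          exact hW2 ε (fun k : Fin K => if k < j then z k else y) c (fun _ => true)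
        intro ε z c c'
        rw [key ε z c, key ε z c']
        exact ⟨hFag _ _ ε z, hFag _ _ ε z⟩
  obtain ⟨W, hW1, hW2⟩ := claim K le_rfl
  -- each pattern `ρ_c` holds under `W c`
  have hc : ∀ c : Fin K → Bool, ∀ᶠ (v : Fin K → Fin m → P) in W c,
      (rho φ θ K c).Realize (Sum.elim (fun q => v q.1 q.2) h) := by
    intro c
    obtain ⟨β, hβ⟩ := exists_rz f hN h
      ((W c).map (fun (v : Fin K → Fin m → P) (q : Fin K × Fin m) => v q.1 q.2))
    have hβk : ∀ k, Rz f h ((W c).map (fun v => v k)) (fun i => β (k, i)) := by
      intro k ψ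
      have := hβ (ψ.relabel (Sum.map (fun i => (k, i)) id))
      rw [Formula.realize_relabel] at this
      have e1 : (Sum.elim β f ∘ (Sum.map (fun i => (k, i)) id : Fin m ⊕ M → _)) =
          Sum.elim (fun i => β (k, i)) f := by
        ext x; cases x <;> rfl
      rw [e1] at this
      rw [this]
      change (∀ᶠ (v : Fin K → Fin m → P) in W c, _) ↔ (∀ᶠ (v : Fin K → Fin m → P) in W c, _)
      refine eventually_congr (Eventually.of_forall (fun v => ?_))
      change (Formula.relabel (Sum.map (fun i => (k, i)) id : Fin m ⊕ M → _) ψ).Realize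
        (Sum.elim (fun q : Fin K × Fin m => v q.1 q.2) h) ↔ ψ.Realize (Sum.elim (v k) h)
      rw [Formula.realize_relabel]
      have e2 : (Sum.elim (fun q : Fin K × Fin m => v q.1 q.2) h ∘
          (Sum.map (fun i => (k, i)) id : Fin m ⊕ M → _)) = Sum.elim (v k) h := by
        ext x; cases x <;> rfl
      rw [e2]
    have hval : ∀ k, (Tr f g a φ (fun i => β (k, i)) ↔ c k = true) := by
      intro k
      have hk : K ≤ k.val + K := by omega
      exact (hW1 c k hk).realize hinv (hβk k)
    have h1 : (rho φ θ K c).Realize (Sum.elim (fun q => g (β q)) (fun x => g (f x))) := by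
      rw [realize_rho]
      exact ⟨a, hθ, hval⟩
    have h2 : (rho φ θ K c).Realize (Sum.elim β f) := by
      rw [← g.map_formula]
      have : (g ∘ Sum.elim β f : (Fin K × Fin m) ⊕ M → N') =
          Sum.elim (fun q => g (β q)) (fun x => g (f x)) := by
        ext x; cases x <;> rfl
      rw [this]
      exact h1
    exact (hβ (rho φ θ K c)).1 h2
  have hall : ∀ c : Fin K → Bool, ∀ᶠ (v : Fin K → Fin m → P) in W (fun _ => true),
      (rho φ θ K c).Realize (Sum.elim (fun q => v q.1 q.2) h) := by
    intro c
    have h1 := hW2 c (fun _ _ => Classical.arbitrary P) c (fun _ => true)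
    have h2 : ∀ q : Fin K × Fin m, ¬ (q.1.val + K < K) := fun q => by omega
    simp only [h2, if_false] at h1
    exact h1.1 (hc c)
  obtain ⟨v, hv⟩ := (Filter.eventually_all.2 hall).exists
  refine hK.transfer h v (fun ε => ?_)
  have := hv ε
  rw [realize_rho] at this
  exact this

end main

end Pool.Agent.FLD394364
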