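import Pool.Agent.Lib.MP_394364_lc.Local

/-!
Tools for the proof of finite local determination in NIP theories: literals, compactness over
`M` inside `N`, tuples of tuples, shattering formulas, and NIP for formulas in finite types of
variables.
-/

set_option autoImplicit false
open FirstOrder FirstOrder.Language Filter

namespace Pool.Agent.FLD394364

variable {L : FirstOrder.Language.{0, 0}}

/-! ### formulas -/

/-- the formula `χ` or its negation -/
def lit {α : Type} (c : Bool) (χ : L.Formula α) : L.Formula α := bif c then χ else ∼χ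

theorem realize_lit {α Q : Type} [L.Structure Q] (c : Bool) (χ : L.Formula α) (v : α → Q) :
    (lit c χ).Realize v ↔ (χ.Realize v ↔ c = true) := by
  cases c
  · simp only [lit, cond_false, Formula.realize_not, Bool.false_eq_true, iff_false]
  · simp only [lit, cond_true, iff_true]

/-- the `k + 1` tuple of `m`-tuples with first component `v` followed by those of `y` -/
def ext {k m : ℕ} {X : Type} (y : Fin k × Fin m → X) (v : Fin m → X) :
    Fin (k + 1) × Fin m → X :=
  fun p => Fin.cases (v p.2) (fun j => y (j, p.2)) p.1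

@[simp] theorem ext_zero {k m : ℕ} {X : Type} (y : Fin k × Fin m → X) (v : Fin m → X)
    (i : Fin m) : ext y v (0, i) = v i := rfl

@[simp] theorem ext_succ {k m : ℕ} {X : Type} (y : Fin k × Fin m → X) (v : Fin m → X)
    (j : Fin k) (i : Fin m) : ext y v (j.succ, i) = y (j, i) := rfl

theorem ext_eta {k m : ℕ} {X : Type} (y : Fin (k + 1) × Fin m → X) :
    ext (fun p => y (p.1.succ, p.2)) (fun i => y (0, i)) = y := by
  funext ⟨j, i⟩
  refine Fin.cases ?_ (fun j => ?_) j <;> rfl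

theorem comp_ext {k m : ℕ} {X Y : Type} (g : X → Y) (y : Fin k × Fin m → X) (v : Fin m → X) :
    (fun q => g (ext y v q)) = ext (fun q => g (y q)) (fun i => g (v i)) := by
  funext ⟨j, i⟩
  refine Fin.cases ?_ (fun j => ?_) j <;> rfl

/-- the variables of `ψ(y₀, …, y_k; z)` when `y₀` and `z` are read off from `V'` -/
def splitVar {k m : ℕ} {V V' : Type} (r : Fin m ⊕ V → V') :
    (Fin (k + 1) × Fin m) ⊕ V → (Fin k × Fin m) ⊕ V' :=
  Sum.elim (fun p => Fin.cases (Sum.inr (r (Sum.inl p.2))) (fun j => Sum.inl (j, p.2)) p.1)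
    (fun v => Sum.inr (r (Sum.inr v)))

theorem realize_split {k m : ℕ} {V V' Q : Type} [L.Structure Q] (r : Fin m ⊕ V → V')
    (ψ : L.Formula ((Fin (k + 1) × Fin m) ⊕ V)) (y : Fin k × Fin m → Q) (w : V' → Q) :
    (ψ.relabel (splitVar r)).Realize (Sum.elim y w) ↔
      ψ.Realize (Sum.elim (ext y (fun i => w (r (Sum.inl i)))) (fun v => w (r (Sum.inr v)))) := by
  rw [Formula.realize_relabel]
  have : Sum.elim y w ∘ splitVar r =
      Sum.elim (ext y (fun i => w (r (Sum.inl i)))) (fun v => w (r (Sum.inr v))) := by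
    funext q
    rcases q with ⟨j, i⟩ | v
    · refine Fin.cases ?_ (fun j => ?_) j <;> rfl
    · rfl
  rw [this]

/-! ### compactness inside `N` -/

section
variable {M N : Type} [L.Structure M] [L.Structure N]

/-- `y` realises the partial type `Λ` over `M` -/
def Sat (f : M ↪ₑ[L] N) {α : Type} (Λ : Set (L.Formula (α ⊕ M))) (y : α → N) : Prop :=
  ∀ ψ ∈ Λ, ψ.Realize (Sum.elim y f)

theorem exists_realize [Nonempty M] {f : M ↪ₑ[L] N} (hN : RealizesTypes f) {β : Type} [Finite β]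
    {I : Type} [Nonempty I] (S : I → Set (β → N)) (hdir : ∀ i j, ∃ k, S k ⊆ S i ∩ S j)
    (hne : ∀ i, (S i).Nonempty) :
    ∃ y : β → N, ∀ (ψ : L.Formula (β ⊕ M)) (i : I),
      (∀ x ∈ S i, ψ.Realize (Sum.elim x f)) → ψ.Realize (Sum.elim y f) := by
  obtain ⟨F, hF⟩ := exists_ultra_of_fip S hdir hne
  obtain ⟨y, hy⟩ := exists_rz f hN f F
  exact ⟨y, fun ψ i h => (hy ψ).2 ((hF i).mono h)⟩

end

/-! ### shattering -/

/-- `∃ x ⋀ⱼ χ(x; yⱼ, wⱼ)^{Jⱼ}` -/
noncomputable def shat {β : Type} [Finite β] {m K : ℕ} {V : Type}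
    (χ : L.Formula (β ⊕ (Fin m ⊕ V))) (J : Fin K → Bool) :
    L.Formula ((Fin K × Fin m) ⊕ (Fin K × V)) :=
  Formula.iExs β (Formula.iInf (fun j : Fin K => lit (J j)
    (χ.relabel (Sum.elim Sum.inr (Sum.elim (fun i => Sum.inl (Sum.inl (j, i)))
      (fun v => Sum.inl (Sum.inr (j, v))))))))

theorem realize_shat {β : Type} [Finite β] {m K : ℕ} {V Q : Type} [L.Structure Q]
    (χ : L.Formula (β ⊕ (Fin m ⊕ V))) (J : Fin K → Bool) (y : Fin K × Fin m → Q)
    (w : Fin K × V → Q) :
    (shat χ J).Realize (Sum.elim y w) ↔ ∃ x : β → Q, ∀ j,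
      (χ.Realize (Sum.elim x (Sum.elim (fun i => y (j, i)) (fun v => w (j, v)))) ↔
        J j = true) := by
  unfold shat
  rw [Formula.realize_iExs]
  refine exists_congr (fun x => ?_)
  rw [Formula.realize_iInf]
  refine forall_congr' (fun j => ?_)
  rw [realize_lit, Formula.realize_relabel]
  have : (fun a => Sum.elim (Sum.elim y w) x a) ∘ (Sum.elim Sum.inr
      (Sum.elim (fun i => Sum.inl (Sum.inl (j, i))) (fun v => Sum.inl (Sum.inr (j, v)))) :
      β ⊕ (Fin m ⊕ V) → _) =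
      Sum.elim x (Sum.elim (fun i => y (j, i)) (fun v => w (j, v))) := by
    funext q
    rcases q with i | (i | v) <;> rfl
  rw [show (Sum.elim (Sum.elim y w) x) = (fun a => Sum.elim (Sum.elim y w) x a) from rfl, this]

/-- the NIP hypothesis of the frozen statement -/
def NIPHyp (L : FirstOrder.Language.{0, 0}) (M : Type) [L.Structure M] : Prop :=
  ∀ (n m : ℕ) (φ : L.Formula (Fin n ⊕ Fin m)), ∃ K : ℕ, ∀ a : Fin K → Fin n → M,
        ¬ ∀ J : Finset (Fin K), ∃ b : Fin m → M, ∀ i : Fin K,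
          (φ.Realize (Sum.elim (a i) b) ↔ i ∈ J)

/-- NIP for `χ(x; y)`, with variables in finite types: no `K' ≥ K` tuples `y` are shattered -/
theorem NIPHyp.bound {M : Type} [L.Structure M] (hnip : NIPHyp L M) {α β : Type} [Finite α]
    [Finite β] (χ : L.Formula (β ⊕ α)) :
    ∃ K : ℕ, ∀ K' ≥ K, ∀ p : Fin K' → α → M, ¬ ∀ J : Fin K' → Bool, ∃ x : β → M,
      ∀ j, (χ.Realize (Sum.elim x (p j)) ↔ J j = true) := by
  classical
  obtain ⟨n, ⟨eα⟩⟩ := Finite.exists_equiv_fin α
  obtain ⟨m, ⟨eβ⟩⟩ := Finite.exists_equiv_fin β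
  obtain ⟨K, hK⟩ := hnip n m (χ.relabel (Sum.elim (fun b => Sum.inr (eβ b))
    (fun a => Sum.inl (eα a)) : β ⊕ α → Fin n ⊕ Fin m))
  refine ⟨K, fun K' hK' p hp => hK (fun i t => p (Fin.castLE hK' i) (eα.symm t)) (fun J => ?_)⟩
  obtain ⟨x, hx⟩ := hp (fun i => if h : i.1 < K then decide ((⟨i.1, h⟩ : Fin K) ∈ J) else false)
  refine ⟨fun t => x (eβ.symm t), fun i => ?_⟩
  rw [Formula.realize_relabel]
  have e : Sum.elim (fun t => p (Fin.castLE hK' i) (eα.symm t)) (fun t => x (eβ.symm t)) ∘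
      (Sum.elim (fun b => Sum.inr (eβ b)) (fun a => Sum.inl (eα a)) : β ⊕ α → Fin n ⊕ Fin m) =
      Sum.elim x (p (Fin.castLE hK' i)) := by
    funext q
    rcases q with b | a <;> simp
  rw [e, hx]
  simp

end Pool.Agent.FLD394364
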